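import Pool.Agent.H3.X15.Rank
import Pool.Graph.R_pool_sql_team_seeded_620a6dc7.H757_X15.CS.FinC
import Pool.Graph.R_pool_sql_team_seeded_620a6dc7.H757_X15.BS.FinB
import Pool.Graph.R_pool_sql_team_seeded_620a6dc7.H757_X15.MT.Lfin15
import Pool.Graph.R_pool_sql_team_seeded_620a6dc7.H757_X15.MT.Sym15

/-!
# The central value does not vanish under the criterion
-/

set_option autoImplicit false

namespace Pool.Agent.H3.X15

open Pool.Agent.H757_X15 (Symb15 t_SYMB t_EUL facL)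
open Pool.Agent.H757_X15.DD (Fm Crit)
open Pool.Agent.Y687 (SS rr)

open scoped Classical

/-- the Euler factor of `y² = x³ + a x + b`, as in the frozen statement -/
noncomputable def fac (a b : ℤ) (s : ℂ) (p : ℕ) : ℂ :=
  if p.Prime ∧ ¬ ((p : ℤ) ∣ 2 * (-4 * a ^ 3 - 27 * b ^ 2)) then
    (1 - ((p : ℂ) - (Nat.card {q : ZMod p × ZMod p //
      q.2 ^ 2 = q.1 ^ 3 + (a : ZMod p) * q.1 + (b : ZMod p)} : ℂ))
        * (p : ℂ) ^ (-s) + (p : ℂ) ^ (1 - 2 * s))⁻¹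
  else 1

/-- the two forms of the Euler product -/
theorem hasProd_fac {a b : ℤ} {s c : ℂ}
    (h : HasProd (fun p : {p : ℕ // p.Prime ∧ ¬ ((p : ℤ) ∣ 2 * (4 * a ^ 3 + 27 * b ^ 2))} =>
      facL a b s p) c) : HasProd (fac a b s) c := by
  have hset : ∀ p : ℕ, (p.Prime ∧ ¬ ((p : ℤ) ∣ 2 * (-4 * a ^ 3 - 27 * b ^ 2))) ↔
      (p.Prime ∧ ¬ ((p : ℤ) ∣ 2 * (4 * a ^ 3 + 27 * b ^ 2))) := by
    intro p
    have e : 2 * (-4 * a ^ 3 - 27 * b ^ 2) = -(2 * (4 * a ^ 3 + 27 * b ^ 2)) := by ring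
    rw [e, dvd_neg]
  refine (Function.Injective.hasProd_iff (g := fun p : {p : ℕ // p.Prime ∧
    ¬ ((p : ℤ) ∣ 2 * (4 * a ^ 3 + 27 * b ^ 2))} => (p : ℕ)) Subtype.val_injective ?_).1 ?_
  · intro p hp
    unfold fac
    rw [if_neg]
    intro hc
    exact hp ⟨⟨p, (hset p).1 hc⟩, rfl⟩
  · refine h.congr_fun fun p => ?_
    show fac a b s (p : ℕ) = facL a b s p
    unfold fac facL
    rw [if_pos ((hset p).2 p.2)]
    push_cast
    rfl

/-- **Nonvanishing and rank zero under the criterion.** -/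
theorem main {D : ℕ} (hD : Squarefree D) (hF : Fm D) (h1 : D ≠ 1) (hC : Crit D) :
    (∃ F : ℂ → ℂ, Differentiable ℂ F ∧
      (∀ s : ℂ, (3 : ℝ) / 2 < s.re → HasProd (fac (-12987 * (D : ℤ) ^ 2) (-263466 * (D : ℤ) ^ 3) s)
        (F s)) ∧ F 1 ≠ 0) ∧
    Module.finrank ℤ (ED D).toAffine.Point = 0 ∧ Finite (ED D).toAffine.Point ∧
      ∀ x : Pool.Agent.W262.SH.Sha (ED D), x + x = 0 → x = 0 := by
  refine ⟨?_, rank_sha hD hF h1 hC⟩
  obtain ⟨s, L, Op, Om, hOp, hOm, g2, g3, hL, hs, hr⟩ := t_SYMB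
  obtain ⟨y, hy, hodd⟩ := Pool.Agent.H757_X15.CC.t_MAINC2 Pool.Agent.H757_X15.BB.t_BIL s _ hs D hD
    hF h1
  have hy0 : y ≠ 0 := by
    rintro rfl
    exact absurd (hodd.2 hC) (by decide)
  have hs0 : s 0 ≠ 0 := by
    intro h0
    have := hs.odd0
    rw [h0] at this
    exact absurd this (by decide)
  have hSS : SS s D D ≠ 0 := by
    rw [hy]
    exact mul_ne_zero hs0 (mul_ne_zero (pow_ne_zero _ (by norm_num)) (pow_ne_zero _ hy0))
  have hDpos : 1 < D := by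
    have := hD.ne_zero
    omega
  obtain ⟨f, hf1, hf2, hf3⟩ := t_EUL s Op hOp hr D hD hDpos (by rcases hF with h | h <;> omega)
    (by
      rw [Nat.Coprime, Nat.gcd_comm, Nat.gcd_rec]
      have h15 : D % 15 = 1 ∨ D % 15 = 4 := by rcases hF with h | h <;> omega
      rcases h15 with h | h <;> rw [h] <;> norm_num) hSS
  exact ⟨f, hf1, fun z hz => hasProd_fac (hf2 z hz), hf3⟩

end Pool.Agent.H3.X15
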