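import Pool.Agent.H3.X15.Pair
import Pool.Graph.R_pool_sql_team_seeded_63374d34.N875.X15.Two

/-!
# The local conditions for the twists of `X_0(15)`
-/

set_option autoImplicit false

namespace Pool.Agent.H3.X15

open Pool.Agent.N875.X15

/-- the local condition in terms of the middle coordinate `u` -/
def LocU (K : Type) [Field K] (m e1 e2 : ℤ) : Prop :=
  ∃ u : K, u ≠ 0 ∧ u + 9 * m ≠ 0 ∧ u - 16 * m ≠ 0 ∧ IsSquare (u * (u + 9 * m) * (u - 16 * m)) ∧
    IsSquare ((u - 16 * m) * (e1 : K)) ∧ IsSquare (u * (e2 : K))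

theorem locU_of {K : Type} [Field K] [CharZero K] [Algebra ℚ K] {m e1 e2 : ℤ}
    (h : LocOK K (123 * m) (-21 * m) (-102 * m) e1 e2) : LocU K m e1 e2 := by
  obtain ⟨x, y, hy, hxy, s1, s2⟩ := h
  simp only [map_mul, map_neg, map_ofNat, map_intCast] at hxy s1 s2
  have e1' : x - 123 * (m : K) = 9 * ((x + 21 * m) / 9 - 16 * m) := by ring
  have e2' : x - -21 * (m : K) = 9 * ((x + 21 * m) / 9) := by ring
  have e3' : x - -102 * (m : K) = 9 * ((x + 21 * m) / 9 + 9 * m) := by ring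
  rw [e1', e2', e3'] at hxy
  rw [e1'] at s1
  rw [e2'] at s2
  set u : K := (x + 21 * m) / 9 with hu
  have hne : u * (u + 9 * m) * (u - 16 * m) ≠ 0 := by
    intro h0
    apply hy
    rw [← pow_eq_zero_iff two_ne_zero, hxy]
    linear_combination 729 * h0
  have h9 : IsSquare (9 : K) := ⟨3, by norm_num⟩
  refine ⟨u, fun h0 => hne (by rw [h0]; ring), fun h0 => hne (by rw [h0]; ring),
    fun h0 => hne (by rw [h0]; ring), ⟨y / 27, ?_⟩, ?_, ?_⟩
  · field_simp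
    linear_combination -hxy
  · refine sq_cancel (x := (9 : K)) (by norm_num) h9 ?_
    rwa [← mul_assoc]
  · refine sq_cancel (x := (9 : K)) (by norm_num) h9 ?_
    rwa [← mul_assoc]

/-- the place at infinity -/
theorem loc_real {m e1 e2 : ℤ} (hm : 0 < m) (h1 : e1 ≠ 0) (h2 : e2 ≠ 0) (h : LocU ℝ m e1 e2) :
    0 < e1 * e2 := by
  obtain ⟨u, hu, hv, hw, ⟨r, hr⟩, ⟨s, hs⟩, ⟨t, ht⟩⟩ := h
  have hm' : (0 : ℝ) < m := by exact_mod_cast hm
  have h1' : (e1 : ℝ) ≠ 0 := by exact_mod_cast h1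
  have h2' : (e2 : ℝ) ≠ 0 := by exact_mod_cast h2
  have k1 : 0 < u * (u + 9 * m) * (u - 16 * m) := by
    refine lt_of_le_of_ne ?_ (mul_ne_zero (mul_ne_zero hu hv) hw).symm
    rw [hr]; exact mul_self_nonneg r
  have k2 : 0 < (u - 16 * m) * e1 := by
    refine lt_of_le_of_ne ?_ (mul_ne_zero hw h1').symm
    rw [hs]; exact mul_self_nonneg s
  have k3 : 0 < u * e2 := by
    refine lt_of_le_of_ne ?_ (mul_ne_zero hu h2').symm
    rw [ht]; exact mul_self_nonneg t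
  have k4 : 0 < (e1 : ℝ) * e2 := by
    rcases lt_or_gt_of_ne hu with c | c
    · -- `u < 0`, so `w < 0`
      have c1 : u - 16 * m < 0 := by linarith
      have c2 : (e1 : ℝ) < 0 := by
        by_contra hcon
        push Not at hcon
        nlinarith
      have c3 : (e2 : ℝ) < 0 := by
        by_contra hcon
        push Not at hcon
        nlinarith
      exact mul_pos_of_neg_of_neg c2 c3
    · have c0 : 0 < u + 9 * m := by linarith
      have c1 : 0 < u - 16 * m := by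
        by_contra hcon
        push Not at hcon
        have : 0 ≤ u * (u + 9 * m) := (mul_pos c c0).le
        nlinarith
      have c2 : (0 : ℝ) < e1 := by
        by_contra hcon
        push Not at hcon
        nlinarith
      have c3 : (0 : ℝ) < e2 := by
        by_contra hcon
        push Not at hcon
        nlinarith
      exact mul_pos c2 c3
  exact_mod_cast k4

section padic

variable {p : ℕ} [hp : Fact p.Prime]

theorem val_int (n : ℤ) (h : ¬ (p : ℤ) ∣ n) : (n : ℚ_[p]).valuation = 0 := by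
  rw [Padic.valuation_intCast, padicValInt.eq_zero_of_not_dvd h]
  rfl

theorem val_dvd {n : ℤ} (hn : Squarefree n) (h : (p : ℤ) ∣ n) : (n : ℚ_[p]).valuation = 1 := by
  rw [Padic.valuation_intCast]
  obtain ⟨k, rfl⟩ := h
  have hp0 : (p : ℤ) ≠ 0 := by exact_mod_cast hp.out.ne_zero
  have hk0 : k ≠ 0 := by
    rintro rfl
    simp at hn
  have hk : ¬ (p : ℤ) ∣ k := by
    rintro ⟨l, rfl⟩
    have := hn (p : ℤ) ⟨l, by ring⟩
    have h3 : Prime (p : ℤ) := Nat.prime_iff_prime_int.1 hp.out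
    exact h3.not_isUnit this
  rw [padicValInt.mul hp0 hk0, padicValInt.eq_zero_of_not_dvd hk, padicValInt.self hp.out.one_lt]
  rfl

theorem ndvd_of_even {n : ℤ} (hn : Squarefree n) (h : Even (n : ℚ_[p]).valuation) :
    ¬ (p : ℤ) ∣ n := by
  intro hd
  rw [val_dvd hn hd] at h
  exact absurd h (by decide)

/-- the valuation of a class -/
theorem even_of_sq {x : ℚ_[p]} {n : ℤ} (hx : x ≠ 0) (hn : n ≠ 0) (h1 : Even x.valuation)
    (h2 : IsSquare (x * (n : ℚ_[p]))) : Even (n : ℚ_[p]).valuation := by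
  have hn' : (n : ℚ_[p]) ≠ 0 := by exact_mod_cast hn
  have h3 := even_val (mul_ne_zero hx hn') h2
  rw [Padic.valuation_mul hx hn'] at h3
  obtain ⟨r, hr⟩ := h1
  obtain ⟨s, hs⟩ := h3
  exact ⟨s - r, by omega⟩

/-- good primes -/
theorem loc_good (h2 : p ≠ 2) (h3 : p ≠ 3) (h5 : p ≠ 5) {m e1 e2 : ℤ} (hm : ¬ (p : ℤ) ∣ m)
    (q1 : Squarefree e1) (q2 : Squarefree e2) (h : LocU ℚ_[p] m e1 e2) :
    ¬ (p : ℤ) ∣ e1 ∧ ¬ (p : ℤ) ∣ e2 := by
  obtain ⟨u, hu, hv, hw, hs, s1, s2⟩ := h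
  have hpr : Prime (p : ℤ) := Nat.prime_iff_prime_int.1 hp.out
  have hnd : ∀ n : ℕ, n.Prime → p ≠ n → ¬ (p : ℤ) ∣ (n : ℤ) := by
    intro n hn hne hd
    exact hne ((Nat.prime_dvd_prime_iff_eq hp.out hn).1 (by exact_mod_cast hd))
  have n2 : ¬ (p : ℤ) ∣ 2 := hnd 2 Nat.prime_two h2
  have n3 : ¬ (p : ℤ) ∣ 3 := hnd 3 Nat.prime_three h3
  have n5 : ¬ (p : ℤ) ∣ 5 := hnd 5 Nat.prime_five h5
  have m9 : ¬ (p : ℤ) ∣ 9 * m := by
    intro hd
    rcases hpr.dvd_or_dvd hd with h | h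
    · exact n3 (hpr.dvd_of_dvd_pow (n := 2) (by norm_num; exact h))
    · exact hm h
  have m16 : ¬ (p : ℤ) ∣ -16 * m := by
    intro hd
    rcases hpr.dvd_or_dvd hd with h | h
    · exact n2 (hpr.dvd_of_dvd_pow (n := 4) (by norm_num; exact (dvd_neg.1 (by simpa using h))))
    · exact hm h
  have m25 : ¬ (p : ℤ) ∣ -25 * m := by
    intro hd
    rcases hpr.dvd_or_dvd hd with h | h
    · exact n5 (hpr.dvd_of_dvd_pow (n := 2) (by norm_num; exact (dvd_neg.1 (by simpa using h))))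
    · exact hm h
  have hm0 : m ≠ 0 := by rintro rfl; exact hm (dvd_zero _)
  have hmK : (m : ℚ_[p]) ≠ 0 := by exact_mod_cast hm0
  have d1 : u + 9 * (m : ℚ_[p]) - u = ((9 * m : ℤ) : ℚ_[p]) := by push_cast; ring
  have d2 : u - 16 * (m : ℚ_[p]) - u = ((-16 * m : ℤ) : ℚ_[p]) := by push_cast; ring
  have d3 : u - 16 * (m : ℚ_[p]) - (u + 9 * (m : ℚ_[p])) = ((-25 * m : ℤ) : ℚ_[p]) := by
    push_cast; ring
  have nz : ∀ n : ℤ, ¬ (p : ℤ) ∣ n → (n : ℚ_[p]) ≠ 0 := by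
    intro n hn h0
    have : n = 0 := by exact_mod_cast h0
    exact hn (this ▸ dvd_zero _)
  obtain ⟨v1, v2, v3⟩ := loc_unr h2 hu hv hw hs (by rw [d1]; exact nz _ m9)
    (by rw [d2]; exact nz _ m16) (by rw [d3]; exact nz _ m25) (l := 0) (k := 0)
    (by rw [d1]; exact val_int _ m9) (by rw [d2]; exact val_int _ m16)
    (by rw [d3]; exact val_int _ m25) le_rfl (by decide) (by decide) (fun h => absurd h (by omega))
  exact ⟨ndvd_of_even q1 (even_of_sq hw q1.ne_zero v3 s1),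
    ndvd_of_even q2 (even_of_sq hu q2.ne_zero v1 s2)⟩

/-- an integer which is prime to `p` and a `p`-adic square is a square modulo `p` -/
theorem sq_mod {n : ℤ} (hn : ¬ (p : ℤ) ∣ n) (h : IsSquare (n : ℚ_[p])) :
    IsSquare ((n : ℤ) : ZMod p) := by
  obtain ⟨r, hr⟩ := h
  have hnorm : ‖(n : ℚ_[p])‖ = 1 := by
    refine le_antisymm (Padic.norm_int_le_one n) ?_
    rw [← not_lt, Padic.norm_intCast_lt_one_iff]
    exact hn
  have hr1 : ‖r‖ ≤ 1 := by
    have h1 : ‖r‖ * ‖r‖ = 1 := by rw [← norm_mul, ← hr, hnorm]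
    by_contra hcon
    push Not at hcon
    nlinarith
  let r' : ℤ_[p] := ⟨r, hr1⟩
  have h2 : (n : ℤ_[p]) = r' * r' := by
    apply Subtype.ext
    rw [PadicInt.coe_mul, PadicInt.coe_intCast]
    exact hr
  refine ⟨PadicInt.toZMod r', ?_⟩
  rw [← map_mul, ← h2, map_intCast]

end padic

/-- the prime `3` -/
theorem loc_three {m e1 e2 : ℤ} (hm : m % 3 = 1) (q1 : Squarefree e1) (q2 : Squarefree e2)
    (h : LocU ℚ_[3] m e1 e2) : ¬ (3 : ℤ) ∣ e1 ∧ ¬ (3 : ℤ) ∣ e2 := by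
  obtain ⟨u, hu, hv, hw, hs, s1, s2⟩ := h
  have hm3 : ¬ ((3 : ℕ) : ℤ) ∣ m := by push_cast; omega
  have m16 : ¬ ((3 : ℕ) : ℤ) ∣ -16 * m := by push_cast; omega
  have m25 : ¬ ((3 : ℕ) : ℤ) ∣ -25 * m := by push_cast; omega
  have hm0 : m ≠ 0 := by rintro rfl; simp at hm
  have hmK : (m : ℚ_[3]) ≠ 0 := by exact_mod_cast hm0
  have d1 : u + 9 * (m : ℚ_[3]) - u = 9 * (m : ℚ_[3]) := by ring
  have d2 : u - 16 * (m : ℚ_[3]) - u = ((-16 * m : ℤ) : ℚ_[3]) := by push_cast; ring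
  have d3 : u - 16 * (m : ℚ_[3]) - (u + 9 * (m : ℚ_[3])) = ((-25 * m : ℤ) : ℚ_[3]) := by
    push_cast; ring
  have nz : ∀ n : ℤ, ¬ ((3 : ℕ) : ℤ) ∣ n → (n : ℚ_[3]) ≠ 0 := by
    intro n hn h0
    have : n = 0 := by exact_mod_cast h0
    exact hn (this ▸ dvd_zero _)
  have v9 : (9 * (m : ℚ_[3])).valuation = 2 := by
    rw [Padic.valuation_mul (by norm_num) hmK, val_int m hm3]
    have e9 : (9 : ℚ_[3]) = ((3 : ℕ) : ℚ_[3]) ^ 2 := by norm_num
    rw [e9, Padic.valuation_pow, Padic.valuation_p]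
    norm_num
  obtain ⟨v1, v2, v3⟩ := loc_unr (p := 3) (by norm_num) hu hv hw hs
    (by rw [d1]; exact mul_ne_zero (by norm_num) hmK)
    (by rw [d2]; exact nz _ m16) (by rw [d3]; exact nz _ m25) (l := 2) (k := 0)
    (by rw [d1]; exact v9) (by rw [d2]; exact val_int _ m16)
    (by rw [d3]; exact val_int _ m25) (by norm_num) (by decide) (by decide) (fun _ hsq => by
      rw [d2] at hsq
      have h5 := sq_mod m16 hsq
      have h6 : (((-16 * m : ℤ)) : ZMod 3) = 2 := by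
        have h7 : ((-16 * m : ℤ) : ZMod 3) = ((2 : ℤ) : ZMod 3) := by
          rw [ZMod.intCast_eq_intCast_iff]
          show (-16 * m) % ((3 : ℕ) : ℤ) = 2 % ((3 : ℕ) : ℤ)
          push_cast
          omega
        rw [h7]
        rfl
      rw [h6] at h5
      revert h5
      decide)
  exact ⟨ndvd_of_even (p := 3) q1 (even_of_sq hw q1.ne_zero v3 s1),
    ndvd_of_even (p := 3) q2 (even_of_sq hu q2.ne_zero v1 s2)⟩

instance fact5 : Fact (Nat.Prime 5) := ⟨by norm_num⟩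

/-- squares in `ℚ_5` -/
theorem five_sq {m : ℤ} (hm : m % 5 = 1 ∨ m % 5 = 4) : IsSquare (m : ℚ_[5]) := by
  -- `m = r² (1 + 5 t)`
  have key : ∀ n : ℤ, n % 5 = 1 → IsSquare (n : ℚ_[5]) := by
    intro n hn
    have h1 : ‖((n - 1 : ℤ) : ℚ_[5])‖ < 1 := by
      rw [Padic.norm_intCast_lt_one_iff]
      push_cast
      omega
    have h2 := Pool.Agent.W22.RK.isSquare_one_add (p := 5) (by norm_num) _ h1
    have h3 : (1 : ℚ_[5]) + ((n - 1 : ℤ) : ℚ_[5]) = n := by push_cast; ring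
    rwa [h3] at h2
  rcases hm with h | h
  · exact key m h
  · have h1 := key (4 * m) (by omega)
    have h4 : IsSquare (4 : ℚ_[5]) := ⟨2, by norm_num⟩
    push_cast at h1
    exact sq_cancel (by norm_num) h4 h1

/-- the prime `5` -/
theorem loc_five {m e1 e2 : ℤ} (hm : m % 5 = 1 ∨ m % 5 = 4) (q2 : Squarefree e2)
    (h : LocU ℚ_[5] m e1 e2) : ¬ (5 : ℤ) ∣ e2 ∧ IsSquare ((e2 : ℤ) : ZMod 5) := by
  obtain ⟨u, hu, hv, hw, hs, s1, s2⟩ := h
  have hm5 : ¬ ((5 : ℕ) : ℤ) ∣ m := by push_cast; omega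
  have m16 : ¬ ((5 : ℕ) : ℤ) ∣ 16 * m := by push_cast; omega
  have hm0 : m ≠ 0 := by rintro rfl; simp at hm
  have hmK : (m : ℚ_[5]) ≠ 0 := by exact_mod_cast hm0
  have hmsq := five_sq hm
  have hsu : IsSquare u := by
    rcases lt_or_ge (u - 16 * (m : ℚ_[5])).valuation 2 with c | c
    · have d : u + 9 * (m : ℚ_[5]) - (u - 16 * (m : ℚ_[5])) = 25 * m := by ring
      have v25 : (25 * (m : ℚ_[5])).valuation = 2 := by
        rw [Padic.valuation_mul (by norm_num) hmK, val_int m hm5]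
        have e9 : (25 : ℚ_[5]) = ((5 : ℕ) : ℚ_[5]) ^ 2 := by norm_num
        rw [e9, Padic.valuation_pow, Padic.valuation_p]
        norm_num
      have h1 := (closeV (p := 5) (by norm_num) hv hw (by
        rw [d]; exact mul_ne_zero (by norm_num) hmK) (by rw [d, v25]; exact c)).1
      refine sq_cancel (mul_ne_zero hv hw) h1 ?_
      have e : (u + 9 * (m : ℚ_[5])) * (u - 16 * m) * u = u * (u + 9 * m) * (u - 16 * m) := by ring
      rwa [e]
    · have d : u - 16 * (m : ℚ_[5]) = u - ((16 * m : ℤ) : ℚ_[5]) := by push_cast; ring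
      have h16 : ((16 * m : ℤ) : ℚ_[5]) ≠ 0 := by
        push_cast
        exact mul_ne_zero (by norm_num) hmK
      have h1 := (closeV (p := 5) (by norm_num) hu h16 (by rw [← d]; exact hw) (by
        rw [← d, val_int _ m16]
        omega)).1
      have hsq16 : IsSquare ((16 * m : ℤ) : ℚ_[5]) := by
        push_cast
        exact IsSquare.mul ⟨4, by norm_num⟩ hmsq
      exact sq_cancel h16 hsq16 (by rwa [mul_comm])
  have h3 : IsSquare (e2 : ℚ_[5]) := sq_cancel hu hsu s2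
  have h4 : ¬ ((5 : ℕ) : ℤ) ∣ e2 :=
    ndvd_of_even (p := 5) q2 (even_val (by exact_mod_cast q2.ne_zero) h3)
  exact ⟨by exact_mod_cast h4, sq_mod h4 h3⟩

/-- the prime `2` -/
theorem loc_two {m e1 e2 : ℤ} (hm : m % 4 = 1) (q1 : Squarefree e1) (q2 : Squarefree e2)
    (h : LocU ℚ_[2] m e1 e2) : ¬ (2 : ℤ) ∣ e1 ∧ ¬ (2 : ℤ) ∣ e2 ∧ e1 * e2 % 4 = 1 := by
  obtain ⟨u, hu, hv, hw, hs, s1, s2⟩ := h
  have hm0 : m ≠ 0 := by rintro rfl; simp at hm
  have hmK : (m : ℚ_[2]) ≠ 0 := by exact_mod_cast hm0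
  have k1 := two_v hm0 hu hv hw hs
  have k2 := two_u hm hu hv hw hs
  have h1K : (e1 : ℚ_[2]) ≠ 0 := by exact_mod_cast q1.ne_zero
  have h2K : (e2 : ℚ_[2]) ≠ 0 := by exact_mod_cast q2.ne_zero
  have n2 : ¬ ((2 : ℕ) : ℤ) ∣ e2 := ndvd_of_even (p := 2) q2 (even_of_sq hu q2.ne_zero k2 s2)
  have hm2 : ¬ ((2 : ℕ) : ℤ) ∣ m := by push_cast; omega
  have hm52 : ¬ ((2 : ℕ) : ℤ) ∣ 5 * m := by push_cast; omega
  -- `v e1 e2` is a square
  have hv12 : IsSquare ((u + 9 * (m : ℚ_[2])) * ((e1 * e2 : ℤ) : ℚ_[2])) := by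
    have h5 : IsSquare (((u - 16 * (m : ℚ_[2])) * e1 * (u * e2)) *
        (u * (u + 9 * m) * (u - 16 * m))) := (s1.mul s2).mul hs
    have e' : ((u - 16 * (m : ℚ_[2])) * e1 * (u * e2)) * (u * (u + 9 * m) * (u - 16 * m)) =
      (u * (u - 16 * m)) * (u * (u - 16 * m)) * ((u + 9 * m) * ((e1 * e2 : ℤ) : ℚ_[2])) := by
      push_cast
      ring
    rw [e'] at h5
    exact sq_cancel (mul_ne_zero (mul_ne_zero hu hw) (mul_ne_zero hu hw)) ⟨_, rfl⟩ h5
  -- the class of `v`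
  obtain ⟨d, hd4, hvd⟩ : ∃ d : ℤ, d % 4 = 1 ∧ IsSquare ((u + 9 * (m : ℚ_[2])) * (d : ℚ_[2])) := by
    rcases k1 with k | k | ⟨k, -⟩
    · exact ⟨1, by norm_num, by simpa using k⟩
    · exact ⟨m, hm, k⟩
    · refine ⟨5 * m, by omega, ?_⟩
      push_cast
      exact k
  have hd2 : ¬ ((2 : ℕ) : ℤ) ∣ d := by push_cast; omega
  have hdK : (d : ℚ_[2]) ≠ 0 := by
    intro h0
    have : d = 0 := by exact_mod_cast h0
    omega
  have hvv : Even (u + 9 * (m : ℚ_[2])).valuation := by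
    have h3 := even_val (mul_ne_zero hv hdK) hvd
    rwa [Padic.valuation_mul hv hdK, val_int (p := 2) d hd2, add_zero] at h3
  have hww : Even (u - 16 * (m : ℚ_[2])).valuation := by
    have h3 := even_val (mul_ne_zero (mul_ne_zero hu hv) hw) hs
    rw [Padic.valuation_mul (mul_ne_zero hu hv) hw, Padic.valuation_mul hu hv] at h3
    obtain ⟨r, hr⟩ := h3
    obtain ⟨s, hs'⟩ := hvv
    obtain ⟨t, ht⟩ := k2
    exact ⟨r - s - t, by omega⟩
  have n1 : ¬ ((2 : ℕ) : ℤ) ∣ e1 := ndvd_of_even (p := 2) q1 (even_of_sq hw q1.ne_zero hww s1)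
  have h12 : IsSquare ((d * (e1 * e2) : ℤ) : ℚ_[2]) := by
    rw [Int.cast_mul]
    refine sq_trans hv ?_ hv12
    rwa [mul_comm]
  have hodd : ¬ (2 : ℤ) ∣ d * (e1 * e2) := by
    have hpr : Prime (2 : ℤ) := Int.prime_two
    intro h0
    rcases hpr.dvd_or_dvd h0 with h | h
    · exact hd2 (by exact_mod_cast h)
    · rcases hpr.dvd_or_dvd h with h | h
      · exact n1 (by exact_mod_cast h)
      · exact n2 (by exact_mod_cast h)
  have h8 := Pool.Agent.Y667.RP.mod_of_sq hodd h12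
  refine ⟨by exact_mod_cast n1, by exact_mod_cast n2, ?_⟩
  have h9 : d * (e1 * e2) % 4 = 1 := by omega
  rw [Int.mul_emod, hd4] at h9
  omega

/-- the primes dividing `m` -/
theorem loc_bad {p : ℕ} [hp : Fact p.Prime] (h2 : p ≠ 2) (h3 : p ≠ 3) (h5 : p ≠ 5) {m e1 e2 : ℤ}
    (hmq : Squarefree m) (hm : (p : ℤ) ∣ m) (h : LocU ℚ_[p] m e1 e2) :
    (IsSquare (e1 : ℚ_[p]) ∧ IsSquare (e2 : ℚ_[p])) ∨
    (IsSquare ((e1 : ℚ_[p])) ∧ IsSquare ((e2 * m : ℤ) : ℚ_[p])) ∨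
    (IsSquare ((e1 * -m : ℤ) : ℚ_[p]) ∧ IsSquare ((-e2 : ℤ) : ℚ_[p])) ∨
    (IsSquare ((e1 * -m : ℤ) : ℚ_[p]) ∧ IsSquare ((-(e2 * m) : ℤ) : ℚ_[p])) := by
  obtain ⟨u, hu, hv, hw, hs, s1, s2⟩ := h
  have hpr : Prime (p : ℤ) := Nat.prime_iff_prime_int.1 hp.out
  have hnd : ∀ n : ℕ, n.Prime → p ≠ n → ¬ (p : ℤ) ∣ (n : ℤ) := by
    intro n hn hne hd
    exact hne ((Nat.prime_dvd_prime_iff_eq hp.out hn).1 (by exact_mod_cast hd))
  have n2 : ¬ (p : ℤ) ∣ 2 := hnd 2 Nat.prime_two h2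
  have n3 : ¬ (p : ℤ) ∣ 3 := hnd 3 Nat.prime_three h3
  have n5 : ¬ (p : ℤ) ∣ 5 := hnd 5 Nat.prime_five h5
  have m9 : ¬ (p : ℤ) ∣ 9 := fun hd => n3 (hpr.dvd_of_dvd_pow (n := 2) (by norm_num; exact hd))
  have m16 : ¬ (p : ℤ) ∣ -16 := fun hd =>
    n2 (hpr.dvd_of_dvd_pow (n := 4) (by norm_num; exact (dvd_neg.1 (by simpa using hd))))
  have m25 : ¬ (p : ℤ) ∣ -25 := fun hd =>
    n5 (hpr.dvd_of_dvd_pow (n := 2) (by norm_num; exact (dvd_neg.1 (by simpa using hd))))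
  have hm0 : m ≠ 0 := hmq.ne_zero
  have hmK : (m : ℚ_[p]) ≠ 0 := by exact_mod_cast hm0
  have vm : (m : ℚ_[p]).valuation = 1 := val_dvd hmq hm
  have nz : ∀ n : ℤ, ¬ (p : ℤ) ∣ n → (n : ℚ_[p]) ≠ 0 := by
    intro n hn h0
    have : n = 0 := by exact_mod_cast h0
    exact hn (this ▸ dvd_zero _)
  have d1 : u + 9 * (m : ℚ_[p]) - u = ((9 : ℤ) : ℚ_[p]) * m := by push_cast; ring
  have d2 : u - 16 * (m : ℚ_[p]) - u = ((-16 : ℤ) : ℚ_[p]) * m := by push_cast; ring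
  have d3 : u - 16 * (m : ℚ_[p]) - (u + 9 * (m : ℚ_[p])) = ((-25 : ℤ) : ℚ_[p]) * m := by
    push_cast; ring
  have w1 : (((9 : ℤ) : ℚ_[p]) * m).valuation = 1 := by
    rw [Padic.valuation_mul (nz _ m9) hmK, val_int _ m9, vm, zero_add]
  have w2 : (((-16 : ℤ) : ℚ_[p]) * m).valuation = 1 := by
    rw [Padic.valuation_mul (nz _ m16) hmK, val_int _ m16, vm, zero_add]
  have w3 : (((-25 : ℤ) : ℚ_[p]) * m).valuation = 1 := by
    rw [Padic.valuation_mul (nz _ m25) hmK, val_int _ m25, vm, zero_add]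
  have key := loc_ram h2 hu hv hw hs (by rw [d1]; exact mul_ne_zero (nz _ m9) hmK)
    (by rw [d2]; exact mul_ne_zero (nz _ m16) hmK) (by rw [d3]; exact mul_ne_zero (nz _ m25) hmK)
    (l := 1) (k := 1) (by rw [d1]; exact w1) (by rw [d2]; exact w2) (by rw [d3]; exact w3)
    le_rfl (by decide)
  -- the square factors
  have fac : ∀ (x : ℚ_[p]) (r : ℚ_[p]) (y : ℚ_[p]), r ≠ 0 → IsSquare (x * (r * r * y)) →
      IsSquare (x * y) := by
    intro x r y hr hx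
    refine sq_cancel (mul_ne_zero hr hr) ⟨r, rfl⟩ ?_
    have e : r * r * (x * y) = x * (r * r * y) := by ring
    rwa [e]
  have z3 : (3 : ℚ_[p]) ≠ 0 := by norm_num
  have z4 : (4 : ℚ_[p]) ≠ 0 := by norm_num
  have z5 : (5 : ℚ_[p]) ≠ 0 := by norm_num
  -- classes of `v` and `w` give those of `u`
  have hs' : ∀ {x y : ℚ_[p]}, IsSquare ((u + 9 * m) * x) → IsSquare ((u - 16 * m) * y) →
      IsSquare (u * (x * y)) := by
    intro x y hx hy
    have h6 : IsSquare (((u + 9 * m) * x * ((u - 16 * m) * y)) *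
      (u * (u + 9 * m) * (u - 16 * m))) := (hx.mul hy).mul hs
    refine sq_cancel (x := ((u + 9 * m) * (u - 16 * m)) * ((u + 9 * m) * (u - 16 * m)))
      (mul_ne_zero (mul_ne_zero hv hw) (mul_ne_zero hv hw)) ⟨_, rfl⟩ ?_
    have e : (u + 9 * (m : ℚ_[p])) * (u - 16 * m) * ((u + 9 * m) * (u - 16 * m)) * (u * (x * y)) =
      ((u + 9 * m) * x * ((u - 16 * m) * y)) * (u * (u + 9 * m) * (u - 16 * m)) := by ring
    rwa [e]
  have hs'' : ∀ {x y : ℚ_[p]}, IsSquare ((u + 9 * m) * x) → IsSquare (u * y) →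
      IsSquare ((u - 16 * m) * (x * y)) := by
    intro x y hx hy
    have h6 : IsSquare (((u + 9 * m) * x * (u * y)) *
      (u * (u + 9 * m) * (u - 16 * m))) := (hx.mul hy).mul hs
    refine sq_cancel (x := ((u + 9 * m) * u) * ((u + 9 * m) * u))
      (mul_ne_zero (mul_ne_zero hv hu) (mul_ne_zero hv hu)) ⟨_, rfl⟩ ?_
    have e : (u + 9 * (m : ℚ_[p])) * u * ((u + 9 * m) * u) * ((u - 16 * m) * (x * y)) =
      ((u + 9 * m) * x * (u * y)) * (u * (u + 9 * m) * (u - 16 * m)) := by ring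
    rwa [e]
  have gw : ∀ x : ℚ_[p], IsSquare ((u - 16 * m) * x) → IsSquare (e1 * x) := fun x hx =>
    sq_trans hw (by rwa [mul_comm]) hx
  have gu : ∀ x : ℚ_[p], IsSquare (u * x) → IsSquare (e2 * x) := fun x hx =>
    sq_trans hu (by rwa [mul_comm]) hx
  rcases key with ⟨ku, kv⟩ | ⟨kv, kw⟩ | ⟨ku, kw⟩ | ⟨ku, kv⟩
  · left
    have a1 : IsSquare (u * 1) := by rwa [mul_one]
    have a2 : IsSquare ((u + 9 * m) * 1) := by rwa [mul_one]
    have a3 := hs'' a2 a1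
    rw [one_mul] at a3
    have b1 := gw 1 a3
    have b2 := gu 1 a1
    rw [mul_one] at b1 b2
    exact ⟨b1, b2⟩
  · -- `T2`
    right; right; left
    have a1 : IsSquare ((u + 9 * (m : ℚ_[p])) * m) := by
      apply fac _ 3 _ z3
      have e : (3 : ℚ_[p]) * 3 * m = u + 9 * m - u := by ring
      rwa [e]
    have a2 : IsSquare ((u - 16 * (m : ℚ_[p])) * (-m)) := by
      apply fac _ 4 _ z4
      have e : (4 : ℚ_[p]) * 4 * (-m) = u - 16 * m - u := by ring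
      rwa [e]
    have a3 : IsSquare (u * (-1)) := by
      have h6 := hs' a1 a2
      apply fac _ (m : ℚ_[p]) _ hmK
      have e : (m : ℚ_[p]) * m * (-1) = m * -m := by ring
      rwa [e]
    refine ⟨?_, ?_⟩
    · have := gw _ a2
      push_cast
      exact this
    · have := gu _ a3
      rw [mul_neg_one] at this
      push_cast
      exact this
  · -- `T3`
    right; right; right
    have a1 : IsSquare (u * (-(m : ℚ_[p]))) := by
      apply fac _ 3 _ z3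
      have e : (3 : ℚ_[p]) * 3 * (-m) = u - (u + 9 * m) := by ring
      rwa [e]
    have a2 : IsSquare ((u - 16 * (m : ℚ_[p])) * (-m)) := by
      apply fac _ 5 _ z5
      have e : (5 : ℚ_[p]) * 5 * (-m) = u - 16 * m - (u + 9 * m) := by ring
      rwa [e]
    refine ⟨?_, ?_⟩
    · have := gw _ a2
      push_cast
      exact this
    · have := gu _ a1
      rw [mul_neg] at this
      push_cast
      exact this
  · -- `T1`
    right; left
    have a1 : IsSquare (u * (m : ℚ_[p])) := by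
      apply fac _ 4 _ z4
      have e : (4 : ℚ_[p]) * 4 * m = u - (u - 16 * m) := by ring
      rwa [e]
    have a2 : IsSquare ((u + 9 * (m : ℚ_[p])) * m) := by
      apply fac _ 5 _ z5
      have e : (5 : ℚ_[p]) * 5 * m = u + 9 * m - (u - 16 * m) := by ring
      rwa [e]
    have a3 : IsSquare ((u - 16 * (m : ℚ_[p])) * 1) := by
      have h6 := hs'' a2 a1
      apply fac _ (m : ℚ_[p]) _ hmK
      rwa [mul_one]
    refine ⟨?_, ?_⟩
    · have := gw _ a3
      rwa [mul_one] at this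
    · have := gu _ a1
      push_cast
      exact this

end Pool.Agent.H3.X15
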