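import Pool.Agent.H3.X15.Sel4
import Pool.Graph.R_seed8.W22.RK.Loc
import Pool.Graph.R_seed8.Y667.RP.Two

/-!
# The Selmer homomorphisms and pairs of square classes
-/

set_option autoImplicit false

namespace Pool.Agent.H3.X15

open WeierstrassCurve

open scoped Classical

open Pool.Agent.W262.SH (QB Pt act IsCoc IsCob LocTriv shaCoc cob Sha)
open Pool.Agent.TH841.SH

/-- there is a point in the class of the pair `(e1, e2)` over `K` -/
def LocOK (K : Type) [Field K] [Algebra ℚ K] (a b c : ℚ) (e1 e2 : ℤ) : Prop :=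
  ∃ x y : K, y ≠ 0 ∧ y ^ 2 = (x - algebraMap ℚ K a) * (x - algebraMap ℚ K b) *
      (x - algebraMap ℚ K c) ∧ IsSquare ((x - algebraMap ℚ K a) * (e1 : K)) ∧
      IsSquare ((x - algebraMap ℚ K b) * (e2 : K))

/-- the homomorphism `f` is given by the pair `(e1, e2)` -/
def IsPair (W : WeierstrassCurve ℚ) (a b : ℚ) (e1 e2 : ℤ) (f : (QB ≃ₐ[ℚ] QB) → Pt W QB) : Prop :=
  (∀ s : QB, s ^ 2 = e1 → ∀ σ : QB ≃ₐ[ℚ] QB, σ s = s ↔
    IsX (W.baseChange QB) (algebraMap ℚ QB a) (f σ)) ∧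
  (∀ s : QB, s ^ 2 = e2 → ∀ σ : QB ≃ₐ[ℚ] QB, σ s = s ↔
    IsX (W.baseChange QB) (algebraMap ℚ QB b) (f σ))

/-- a large point whose three coordinates are squares, over `ℚ_p` -/
theorem big_padic (p : ℕ) [hp : Fact p.Prime] (a b c : ℚ) :
    ∃ x y : ℚ_[p], y ≠ 0 ∧ y ^ 2 = (x - algebraMap ℚ ℚ_[p] a) * (x - algebraMap ℚ ℚ_[p] b) *
      (x - algebraMap ℚ ℚ_[p] c) ∧ IsSquare (x - algebraMap ℚ ℚ_[p] a) ∧
      IsSquare (x - algebraMap ℚ ℚ_[p] b) ∧ IsSquare (x - algebraMap ℚ ℚ_[p] c) := by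
  have hp0 : (p : ℚ_[p]) ≠ 0 := by exact_mod_cast hp.out.ne_zero
  -- small numbers
  have hsmall : ∀ w : ℚ_[p], ‖w‖ ≤ 1 / 8 → IsSquare (1 + w) := by
    intro w hw
    by_cases h2 : p = 2
    · subst h2
      exact Pool.Agent.Y667.RP.sq_near_one hw
    · exact Pool.Agent.W22.RK.isSquare_one_add h2 w (lt_of_le_of_lt hw (by norm_num))
  have hone : ∀ w : ℚ_[p], ‖w‖ ≤ 1 / 8 → 1 + w ≠ 0 := by
    intro w hw h0
    have : w = -1 := by linear_combination h0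
    rw [this, norm_neg, norm_one] at hw
    norm_num at hw
  -- the bound
  obtain ⟨N, hN⟩ : ∃ N : ℕ, ∀ q ∈ ({a, b, c} : Finset ℚ),
      ‖(algebraMap ℚ ℚ_[p] q) * (p : ℚ_[p]) ^ (2 * N)‖ ≤ 1 / 8 := by
    have hlt : ‖(p : ℚ_[p])‖ < 1 := Padic.norm_p_lt_one
    have ht : Filter.Tendsto (fun n : ℕ => ‖(p : ℚ_[p])‖ ^ n) Filter.atTop (nhds 0) :=
      tendsto_pow_atTop_nhds_zero_of_lt_one (norm_nonneg _) hlt
    set C : ℝ := ‖algebraMap ℚ ℚ_[p] a‖ + ‖algebraMap ℚ ℚ_[p] b‖ + ‖algebraMap ℚ ℚ_[p] c‖ + 1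
    have hC : 0 < C := by positivity
    have hev := ht.eventually (gt_mem_nhds (show (0 : ℝ) < 1 / (8 * C) by positivity))
    obtain ⟨N, hN⟩ := Filter.eventually_atTop.1 hev
    refine ⟨N, fun q hq => ?_⟩
    have hqC : ‖algebraMap ℚ ℚ_[p] q‖ ≤ C := by
      have n1 := norm_nonneg (algebraMap ℚ ℚ_[p] a)
      have n2 := norm_nonneg (algebraMap ℚ ℚ_[p] b)
      have n3 := norm_nonneg (algebraMap ℚ ℚ_[p] c)
      simp only [Finset.mem_insert, Finset.mem_singleton] at hq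
      rcases hq with rfl | rfl | rfl <;> simp only [C] <;> linarith
    rw [norm_mul, norm_pow]
    have h1 := hN (2 * N) (by omega)
    calc ‖algebraMap ℚ ℚ_[p] q‖ * ‖(p : ℚ_[p])‖ ^ (2 * N) ≤ C * (1 / (8 * C)) :=
          mul_le_mul hqC h1.le (by positivity) hC.le
      _ = 1 / 8 := by field_simp
  set t : ℚ_[p] := (p : ℚ_[p]) ^ N with ht
  have ht0 : t ≠ 0 := pow_ne_zero _ hp0
  have ht2 : (p : ℚ_[p]) ^ (2 * N) = t ^ 2 := by rw [ht, ← pow_mul, mul_comm]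
  rw [ht2] at hN
  have key : ∀ q ∈ ({a, b, c} : Finset ℚ), ∃ r : ℚ_[p], r ≠ 0 ∧
      (1 / t ^ 2 - algebraMap ℚ ℚ_[p] q) = r ^ 2 := by
    intro q hq
    have h1 : ‖-(algebraMap ℚ ℚ_[p] q * t ^ 2)‖ ≤ 1 / 8 := by rw [norm_neg]; exact hN q hq
    obtain ⟨s, hs⟩ := hsmall _ h1
    have h2 := hone _ h1
    refine ⟨s / t, ?_, ?_⟩
    · refine div_ne_zero ?_ ht0
      rintro rfl
      rw [mul_zero] at hs
      exact h2 hs
    · rw [div_pow, pow_two s, ← hs]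
      field_simp
      ring
  obtain ⟨r1, hr1, q1⟩ := key a (by simp)
  obtain ⟨r2, hr2, q2⟩ := key b (by simp)
  obtain ⟨r3, hr3, q3⟩ := key c (by simp)
  refine ⟨1 / t ^ 2, r1 * r2 * r3, mul_ne_zero (mul_ne_zero hr1 hr2) hr3, ?_, ⟨r1, ?_⟩, ⟨r2, ?_⟩,
    ⟨r3, ?_⟩⟩
  · rw [q1, q2, q3]; ring
  · rw [q1]; ring
  · rw [q2]; ring
  · rw [q3]; ring

/-- the same over `ℝ` -/
theorem big_real (a b c : ℚ) :
    ∃ x y : ℝ, y ≠ 0 ∧ y ^ 2 = (x - algebraMap ℚ ℝ a) * (x - algebraMap ℚ ℝ b) *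
      (x - algebraMap ℚ ℝ c) ∧ IsSquare (x - algebraMap ℚ ℝ a) ∧
      IsSquare (x - algebraMap ℚ ℝ b) ∧ IsSquare (x - algebraMap ℚ ℝ c) := by
  set A : ℝ := algebraMap ℚ ℝ a
  set B : ℝ := algebraMap ℚ ℝ b
  set C : ℝ := algebraMap ℚ ℝ c
  set x : ℝ := |A| + |B| + |C| + 1 with hx
  have h1 : 0 < x - A := by
    have := le_abs_self A
    have := abs_nonneg B
    have := abs_nonneg C
    linarith
  have h2 : 0 < x - B := by
    have := le_abs_self B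
    have := abs_nonneg A
    have := abs_nonneg C
    linarith
  have h3 : 0 < x - C := by
    have := le_abs_self C
    have := abs_nonneg A
    have := abs_nonneg B
    linarith
  have h4 : 0 < (x - A) * (x - B) * (x - C) := mul_pos (mul_pos h1 h2) h3
  refine ⟨x, Real.sqrt ((x - A) * (x - B) * (x - C)), (Real.sqrt_pos.2 h4).ne',
    Real.sq_sqrt h4.le, ⟨Real.sqrt (x - A), (Real.mul_self_sqrt h1.le).symm⟩,
    ⟨Real.sqrt (x - B), (Real.mul_self_sqrt h2.le).symm⟩,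
    ⟨Real.sqrt (x - C), (Real.mul_self_sqrt h3.le).symm⟩⟩

variable {W : WeierstrassCurve ℚ} {a b c : ℚ}

/-- the character attached to a root -/
theorem chi_pair (h : IsR W a b c) (hab : a ≠ b) (hac : a ≠ c) (hbc : b ≠ c)
    (f : (QB ≃ₐ[ℚ] QB) → Pt W QB) (h1 : IsLocallyConstant f) (h2 : ∀ σ, f σ + f σ = 0)
    (h3 : ∀ σ τ, f (σ * τ) = f σ + f τ) :
    ∃ e : ℤ, Squarefree e ∧ ∀ s : QB, s ^ 2 = e → ∀ σ : QB ≃ₐ[ℚ] QB, σ s = s ↔
      IsX (W.baseChange QB) (algebraMap ℚ QB a) (f σ) := by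
  have hinj : Function.Injective (algebraMap ℚ QB) := (algebraMap ℚ QB).injective
  let χ : (QB ≃ₐ[ℚ] QB) → Bool := fun σ =>
    decide (¬ IsX (W.baseChange QB) (algebraMap ℚ QB a) (f σ))
  have hχ : ∀ σ, χ σ = false ↔ IsX (W.baseChange QB) (algebraMap ℚ QB a) (f σ) := by
    intro σ
    simp [χ]
  obtain ⟨e, he, hs⟩ := kum χ (h1.comp (fun P => decide
    (¬ IsX (W.baseChange QB) (algebraMap ℚ QB a) P))) (by
    intro σ τ
    have h4 := (h.base QB).isX_add two_ne_zero (hinj.ne hab) (hinj.ne hac) (hinj.ne hbc)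
      (h2 σ) (h2 τ)
    rw [← h3] at h4
    by_cases k1 : IsX (W.baseChange QB) (algebraMap ℚ QB a) (f σ) <;>
      by_cases k2 : IsX (W.baseChange QB) (algebraMap ℚ QB a) (f τ) <;>
      simp only [χ, h4, k1, k2] <;> simp)
  exact ⟨e, he, fun s hs' σ => (hs s hs' σ).trans (hχ σ)⟩

/-- **The Selmer homomorphisms and the pairs.** -/
theorem exists_pair (h : IsR W a b c) (hab : a ≠ b) (hac : a ≠ c) (hbc : b ≠ c)
    (f : selHom W) : ∃ e1 e2 : ℤ, Squarefree e1 ∧ Squarefree e2 ∧ IsPair W a b e1 e2 f ∧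
      (∀ (p : ℕ) [Fact p.Prime], LocOK ℚ_[p] a b c e1 e2) ∧ LocOK ℝ a b c e1 e2 := by
  obtain ⟨g1, g2, g3, g4, g5⟩ := f.2
  obtain ⟨e1, he1, hs1⟩ := chi_pair h hab hac hbc _ g1 g2 g3
  obtain ⟨e2, he2, hs2⟩ := chi_pair h.swap hab.symm hbc hac _ g1 g2 g3
  refine ⟨e1, e2, he1, he2, ⟨hs1, hs2⟩, ?_, ?_⟩
  · intro p _
    obtain ⟨s1, q1⟩ := IsAlgClosed.exists_pow_nat_eq (e1 : QB) (n := 2) (by norm_num)
    obtain ⟨s2, q2⟩ := IsAlgClosed.exists_pow_nat_eq (e2 : QB) (n := 2) (by norm_num)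
    exact loc_step (K := ℚ_[p]) (Ω := AlgebraicClosure ℚ_[p]) two_ne_zero two_ne_zero h hab hac
      hbc f g2 (g4 p) (big_padic p a b c) e1 e2 s1 s2 q1 q2 (hs1 s1 q1) (hs2 s2 q2)
  · obtain ⟨s1, q1⟩ := IsAlgClosed.exists_pow_nat_eq (e1 : QB) (n := 2) (by norm_num)
    obtain ⟨s2, q2⟩ := IsAlgClosed.exists_pow_nat_eq (e2 : QB) (n := 2) (by norm_num)
    exact loc_step (K := ℝ) (Ω := AlgebraicClosure ℝ) two_ne_zero two_ne_zero h hab hac
      hbc f g2 g5 (big_real a b c) e1 e2 s1 s2 q1 q2 (hs1 s1 q1) (hs2 s2 q2)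

/-- a homomorphism is determined by its pair -/
theorem pair_inj (h : IsR W a b c) (hab : a ≠ b) (hac : a ≠ c) (hbc : b ≠ c)
    (f f' : (QB ≃ₐ[ℚ] QB) → Pt W QB) (h2 : ∀ σ, f σ + f σ = 0) (h2' : ∀ σ, f' σ + f' σ = 0)
    {e1 e2 : ℤ} (hf : IsPair W a b e1 e2 f) (hf' : IsPair W a b e1 e2 f') : f = f' := by
  have hinj : Function.Injective (algebraMap ℚ QB) := (algebraMap ℚ QB).injective
  funext σ
  obtain ⟨s1, q1⟩ := IsAlgClosed.exists_pow_nat_eq (e1 : QB) (n := 2) (by norm_num)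
  obtain ⟨s2, q2⟩ := IsAlgClosed.exists_pow_nat_eq (e2 : QB) (n := 2) (by norm_num)
  exact (h.base QB).ext two_ne_zero (hinj.ne hab) (hinj.ne hac) (hinj.ne hbc) (h2 σ) (h2' σ)
    ((hf.1 s1 q1 σ).symm.trans (hf'.1 s1 q1 σ)) ((hf.2 s2 q2 σ).symm.trans (hf'.2 s2 q2 σ))

/-- **The number of the Selmer homomorphisms is at most the number of the pairs.** -/
theorem card_sel_le (h : IsR W a b c) (hab : a ≠ b) (hac : a ≠ c) (hbc : b ≠ c)
    (Z : Finset (ℤ × ℤ)) (hZ : ∀ e1 e2 : ℤ, Squarefree e1 → Squarefree e2 →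
      (∀ (p : ℕ) [Fact p.Prime], LocOK ℚ_[p] a b c e1 e2) → LocOK ℝ a b c e1 e2 →
      (e1, e2) ∈ Z) : Finite (selHom W) ∧ Nat.card (selHom W) ≤ Z.card := by
  choose e1 e2 k1 k2 k3 k4 k5 using exists_pair h hab hac hbc
  let Ψ : selHom W → Z := fun f => ⟨(e1 f, e2 f), hZ _ _ (k1 f) (k2 f) (k4 f) (k5 f)⟩
  have hΨ : Function.Injective Ψ := by
    intro f f' he
    have h1 : (e1 f, e2 f) = (e1 f', e2 f') := congrArg Subtype.val he
    rw [Prod.mk.injEq] at h1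
    have h2 := k3 f
    rw [h1.1, h1.2] at h2
    exact Subtype.ext (pair_inj h hab hac hbc _ _ f.2.2.1 f'.2.2.1 h2 (k3 f'))
  refine ⟨Finite.of_injective Ψ hΨ, ?_⟩
  have := Nat.card_le_card_of_injective Ψ hΨ
  rwa [Nat.card_eq_fintype_card (α := Z), Fintype.card_coe] at this

end Pool.Agent.H3.X15
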