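import Pool.Graph.R_seed8.TH841.SH.Grp

/-!
# The rank, the points of order two and the Tate-Shafarevich group: the sharp inequality
-/

set_option autoImplicit false

namespace Pool.Agent.H3.X15

open WeierstrassCurve

open scoped Classical

/-- the sharp bound for the rank of an abelian group from a covering of `G / 2 G` -/
theorem rkb2 (G : Type) [AddCommGroup G] (hG : AddGroup.FG G) (T : Finset G)
    (hcov : ∀ g : G, ∃ t ∈ T, ∃ q : G, g = t + (q + q)) :
    2 ^ Module.finrank ℤ G * Nat.card {x : G // x + x = 0} ≤ T.card := by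
  have : Module.Finite ℤ G := Module.Finite.iff_addGroup_fg.mpr hG
  let M := G ⧸ Submodule.torsion ℤ G
  have hr : Module.finrank ℤ M = Module.finrank ℤ G :=
    finrank_quotient_eq_of_le_torsion le_rfl
  rw [← hr]
  have : Module.Finite ℤ M := inferInstance
  have : Module.Free ℤ M := inferInstance
  let r := Module.finrank ℤ M
  let b : Module.Basis (Fin r) ℤ M := Module.finBasis ℤ M
  let φ : G → (Fin r → ZMod 2) := fun g i =>
    ((b.repr ((Submodule.torsion ℤ G).mkQ g) i : ℤ) : ZMod 2)
  have hφadd : ∀ g h, φ (g + h) = φ g + φ h := by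
    intro g h
    ext i
    simp [φ]
  have hφtor : ∀ g : G, g ∈ Submodule.torsion ℤ G → φ g = 0 := by
    intro g hg
    ext i
    have : (Submodule.torsion ℤ G).mkQ g = 0 := by
      rw [Submodule.mkQ_apply, Submodule.Quotient.mk_eq_zero]
      exact hg
    simp only [φ, this, map_zero]
    simp
  have hφsurj : ∀ v : Fin r → ZMod 2, ∃ g, φ g = v := by
    intro v
    obtain ⟨g, hg⟩ := (Submodule.torsion ℤ G).mkQ_surjective
      (b.equivFun.symm (fun i => ((v i).val : ℤ)))
    refine ⟨g, ?_⟩
    ext i
    simp only [φ, hg]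
    rw [← Module.Basis.equivFun_apply, LinearEquiv.apply_symm_apply]
    simp
  choose gv hgv using hφsurj
  let A := Submodule.torsion ℤ G
  have hAfin : Finite A := Module.finite_of_fg_torsion A (Submodule.torsion_isTorsion)
  let dbl : A →+ A := AddMonoidHom.id A + AddMonoidHom.id A
  have hdbl : ∀ x : A, dbl x = x + x := fun x => rfl
  have c1 : Nat.card A = Nat.card (A ⧸ dbl.range) * Nat.card dbl.range :=
    AddSubgroup.card_eq_card_quotient_mul_card_addSubgroup _
  have c2 : Nat.card A = Nat.card dbl.range * Nat.card dbl.ker := by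
    rw [AddSubgroup.card_eq_card_quotient_mul_card_addSubgroup dbl.ker]
    congr 1
    exact Nat.card_congr (QuotientAddGroup.quotientKerEquivRange dbl).toEquiv
  have c3 : Nat.card (A ⧸ dbl.range) = Nat.card dbl.ker := by
    have hpos : 0 < Nat.card dbl.range := Nat.card_pos
    have : Nat.card (A ⧸ dbl.range) * Nat.card dbl.range =
        Nat.card dbl.ker * Nat.card dbl.range := by rw [← c1, c2, mul_comm]
    exact Nat.eq_of_mul_eq_mul_right hpos this
  have c4 : Nat.card dbl.ker = Nat.card {x : G // x + x = 0} := by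
    refine Nat.card_congr ⟨fun x => ⟨x.1.1, ?_⟩, fun x => ⟨⟨x.1, ?_⟩, ?_⟩, ?_, ?_⟩
    · have h := x.2
      rw [AddMonoidHom.mem_ker, hdbl] at h
      exact congrArg Subtype.val h
    · rw [Submodule.mem_torsion_iff]
      refine ⟨⟨2, by simp⟩, ?_⟩
      show (2 : ℤ) • x.1 = 0
      rw [two_smul]
      exact x.2
    · rw [AddMonoidHom.mem_ker, hdbl]
      exact Subtype.ext x.2
    · intro x; rfl
    · intro x; rfl
  rw [← c4, ← c3]
  -- the injection
  have hex : ∀ vc : (Fin r → ZMod 2) × (A ⧸ dbl.range), ∃ t : T, ∃ q : G,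
      gv vc.1 + ((Quotient.out vc.2 : A) : G) = t + (q + q) := by
    intro vc
    obtain ⟨t, ht, q, hq⟩ := hcov (gv vc.1 + ((Quotient.out vc.2 : A) : G))
    exact ⟨⟨t, ht⟩, q, hq⟩
  choose Ψ hΨ using hex
  have hinj : Function.Injective Ψ := by
    rintro ⟨v, c⟩ ⟨v', c'⟩ h
    obtain ⟨q, hq⟩ := hΨ (v, c)
    obtain ⟨q', hq'⟩ := hΨ (v', c')
    rw [h] at hq
    simp only at hq hq'
    have h2 : ∀ x : Fin r → ZMod 2, x + x = 0 := fun x => by
      ext i
      exact CharTwo.add_self_eq_zero _
    have e1 : v = v' := by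
      have a1 : φ (gv v + ((Quotient.out c : A) : G)) = v := by
        rw [hφadd, hgv, hφtor _ (Quotient.out c : A).2, add_zero]
      have a2 : φ (gv v' + ((Quotient.out c' : A) : G)) = v' := by
        rw [hφadd, hgv, hφtor _ (Quotient.out c' : A).2, add_zero]
      rw [← a1, ← a2, hq, hq', hφadd, hφadd, hφadd, hφadd, h2, h2]
    subst e1
    have e2 : ((Quotient.out c : A) : G) - ((Quotient.out c' : A) : G) = (q - q') + (q - q') := by
      have : ((Quotient.out c : A) : G) - ((Quotient.out c' : A) : G) =
          (gv v + ((Quotient.out c : A) : G)) - (gv v + ((Quotient.out c' : A) : G)) := by abel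
      rw [this, hq, hq']
      abel
    have e3 : q - q' ∈ A := by
      have h3 : (q - q') + (q - q') ∈ A := by
        rw [← e2]
        exact A.sub_mem (Quotient.out c : A).2 (Quotient.out c' : A).2
      rw [Submodule.mem_torsion_iff] at h3 ⊢
      obtain ⟨a, ha⟩ := h3
      refine ⟨⟨a * 2, ?_⟩, ?_⟩
      · rw [mem_nonZeroDivisors_iff_ne_zero]
        exact mul_ne_zero (nonZeroDivisors.ne_zero a.2) two_ne_zero
      · show ((a : ℤ) * 2) • (q - q') = 0
        rw [mul_smul, two_smul]
        exact ha
    have e4 : c = c' := by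
      rw [← Quotient.out_eq c, ← Quotient.out_eq c']
      have : (QuotientAddGroup.mk (Quotient.out c) : A ⧸ dbl.range) =
          QuotientAddGroup.mk (Quotient.out c') := by
        rw [QuotientAddGroup.eq]
        refine ⟨⟨-(q - q'), A.neg_mem e3⟩, ?_⟩
        apply Subtype.ext
        rw [hdbl]
        show -(q - q') + -(q - q') = -((Quotient.out c : A) : G) + ((Quotient.out c' : A) : G)
        have : -((Quotient.out c : A) : G) + ((Quotient.out c' : A) : G) =
          -(((Quotient.out c : A) : G) - ((Quotient.out c' : A) : G)) := by abel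
        rw [this, e2]
        abel
      exact this
    rw [e4]
  have hcard := Nat.card_le_card_of_injective Ψ hinj
  rw [Nat.card_prod, Nat.card_eq_fintype_card (α := Fin r → ZMod 2),
    Nat.card_eq_fintype_card (α := T)] at hcard
  rw [Fintype.card_fun, ZMod.card, Fintype.card_fin, Fintype.card_coe] at hcard
  exact hcard

end Pool.Agent.H3.X15
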