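import Pool.Agent.H3.X15.Lam

/-!
# The Selmer pairs of the twists of `X_0(15)` under the criterion
-/

set_option autoImplicit false

namespace Pool.Agent.H3.X15

open Finset
open Pool.Agent.Y703.CQ (nr)
open Pool.Agent.H757_X15.DD
open Pool.Agent.H757_X15.DD.Box (nr_self nr_rec sum_aa odd_cases prod_mod)
open Pool.Agent.H757_X15.KK.SG (cl cl_zero_iff cl_mul)
open Pool.Agent.N875.X15 (even_val sq_cancel)

open scoped Classical

theorem fm_mod {D : ℕ} (h : Fm D) : (D : ℤ) % 4 = 1 ∧ (D : ℤ) % 3 = 1 ∧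
    ((D : ℤ) % 5 = 1 ∨ (D : ℤ) % 5 = 4) := by
  rcases h with h | h <;> omega

theorem cl_of {D : ℕ} (hD : Squarefree D) (hF : Fm D) : Cl D.primeFactors := by
  refine ⟨fun p hp => ⟨Nat.prime_of_mem_primeFactors hp, ?_⟩, ?_⟩
  · rintro rfl
    have := Nat.dvd_of_mem_primeFactors hp
    rcases hF with h | h <;> omega
  · rw [Nat.prod_primeFactors_of_squarefree hD]
    exact hF

theorem pf_ge {D : ℕ} (hF : Fm D) {p : ℕ} (hp : p ∈ D.primeFactors) : p ≠ 2 ∧ p ≠ 3 ∧ p ≠ 5 := by
  have h1 := Nat.dvd_of_mem_primeFactors hp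
  refine ⟨?_, ?_, ?_⟩ <;> rintro rfl <;> rcases hF with h | h <;> omega

theorem mem_pf {e : ℤ} (he : e ≠ 0) {p : ℕ} (hp : p.Prime) :
    p ∈ e.natAbs.primeFactors ↔ (p : ℤ) ∣ e := by
  rw [Nat.mem_primeFactors, Int.natCast_dvd]
  constructor
  · exact fun h => h.2.1
  · exact fun h => ⟨hp, h, Int.natAbs_ne_zero.2 he⟩

/-- **The Selmer pairs under the criterion.** -/
theorem pairs {D : ℕ} (hD : Squarefree D) (hF : Fm D) (h1 : D ≠ 1) (hC : Crit D) {e1 e2 : ℤ}
    (q1 : Squarefree e1) (q2 : Squarefree e2)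
    (hp : ∀ (p : ℕ) [Fact p.Prime], LocU ℚ_[p] D e1 e2) (hR : LocU ℝ D e1 e2) :
    (e1 = 1 ∧ e2 = 1) ∨ (e1 = 1 ∧ e2 = D) ∨ (e1 = -D ∧ e2 = -1) ∨ (e1 = -D ∧ e2 = -D) := by
  obtain ⟨m4, m3, m5⟩ := fm_mod hF
  have hcl := cl_of hD hF
  have hgd : Gd D.primeFactors := (t_CRIT D hD hF).1 hC
  have hDpos : 0 < D := Nat.pos_of_ne_zero hD.ne_zero
  have hsgn := loc_real (m := (D : ℤ)) (by exact_mod_cast hDpos) q1.ne_zero q2.ne_zero hR
  obtain ⟨t21, t22, t212⟩ := loc_two m4 q1 q2 (hp 2)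
  obtain ⟨t31, t32⟩ := loc_three m3 q1 q2 (hp 3)
  obtain ⟨t52, t5s⟩ := loc_five m5 q2 (hp 5)
  set S := D.primeFactors with hS
  set P1 := e1.natAbs.primeFactors with hP1
  set P2 := e2.natAbs.primeFactors with hP2
  have hP1p : ∀ q ∈ P1, q.Prime := fun q hq => Nat.prime_of_mem_primeFactors hq
  have hP2p : ∀ q ∈ P2, q.Prime := fun q hq => Nat.prime_of_mem_primeFactors hq
  have h5S : 5 ∉ S := fun h => (pf_ge hF h).2.2 rfl
  have hbad : ∀ q : ℕ, q.Prime → q ∉ S → q ≠ 5 → q ∉ P1 ∧ q ∉ P2 := by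
    intro q hq hqS hq5
    have hfq : Fact q.Prime := ⟨hq⟩
    rw [hP1, hP2, mem_pf q1.ne_zero hq, mem_pf q2.ne_zero hq]
    by_cases hq2 : q = 2
    · subst hq2
      exact ⟨by exact_mod_cast t21, by exact_mod_cast t22⟩
    by_cases hq3 : q = 3
    · subst hq3
      exact ⟨by exact_mod_cast t31, by exact_mod_cast t32⟩
    refine loc_good hq2 hq3 hq5 (m := (D : ℤ)) (fun hd => hqS ?_) q1 q2 (hp q)
    rw [hS, Nat.mem_primeFactors]
    exact ⟨hq, by exact_mod_cast hd, hD.ne_zero⟩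
  have hsub1 : ∀ q ∈ P1, q ≠ 5 → q ∈ S := by
    intro q hq hq5
    by_contra hqS
    exact (hbad q (hP1p q hq) hqS hq5).1 hq
  have h5P2 : 5 ∉ P2 := by
    rw [hP2, mem_pf q2.ne_zero (by norm_num)]
    exact_mod_cast t52
  have hsub2 : P2 ⊆ S := by
    intro q hq
    by_contra hqS
    have hq5 : q ≠ 5 := by
      rintro rfl
      exact h5P2 hq
    exact (hbad q (hP2p q hq) hqS hq5).2 hq
  -- the indicator functions
  set x : ℕ → ZMod 2 := fun q => if q ∈ P1 then 1 else 0 with hx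
  set y : ℕ → ZMod 2 := fun q => if q ∈ P2 then 1 else 0 with hy
  set ε : ZMod 2 := if 5 ∈ P1 then 1 else 0 with hε
  set σ : ZMod 2 := if e1 < 0 then 1 else 0 with hσ
  have hsg : (e2 < 0 ↔ e1 < 0) := by
    constructor
    · intro h
      by_contra hcon
      push Not at hcon
      nlinarith
    · intro h
      by_contra hcon
      push Not at hcon
      nlinarith
  have hσ2 : (if e2 < 0 then (1 : ZMod 2) else 0) = σ := by
    rw [hσ]
    by_cases h : e1 < 0
    · rw [if_pos h, if_pos (hsg.2 h)]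
    · rw [if_neg h, if_neg (fun h' => h (hsg.1 h'))]
  have sum1 : ∀ f : ℕ → ZMod 2, ∑ q ∈ P1, f q = ε * f 5 + ∑ q ∈ S, f q * x q := by
    intro f
    have a1 : ∑ q ∈ S, f q * x q = ∑ q ∈ S.filter (· ∈ P1), f q := by
      rw [sum_filter]
      refine sum_congr rfl fun q _ => ?_
      simp only [hx]
      split_ifs <;> simp
    have a2 : P1.erase 5 = S.filter (· ∈ P1) := by
      ext q
      rw [mem_erase, mem_filter]
      constructor
      · exact fun h => ⟨hsub1 q h.2 h.1, h.2⟩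
      · exact fun h => ⟨fun h5 => h5S (h5 ▸ h.1), h.2⟩
    rw [a1, ← a2, hε]
    by_cases h5 : 5 ∈ P1
    · rw [if_pos h5, one_mul, add_sum_erase _ _ h5]
    · rw [if_neg h5, zero_mul, zero_add, erase_eq_of_notMem h5]
  have sum2 : ∀ f : ℕ → ZMod 2, ∑ q ∈ P2, f q = ∑ q ∈ S, f q * y q := by
    intro f
    have a1 : ∑ q ∈ S, f q * y q = ∑ q ∈ S.filter (· ∈ P2), f q := by
      rw [sum_filter]
      refine sum_congr rfl fun q _ => ?_
      simp only [hy]
      split_ifs <;> simp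
    have a2 : S.filter (· ∈ P2) = P2 := by
      ext q
      rw [mem_filter]
      exact ⟨fun h => h.2, fun h => ⟨hsub2 h, h⟩⟩
    rw [a1, a2]
  -- the character of `5`
  have nr5 : ∀ p ∈ S, nr p 5 = bb p := by
    intro p hpS
    have hpp := (hcl.1 p hpS).1
    have h5 : Nat.Prime 5 := by norm_num
    have hne : p ≠ 5 := fun h => h5S (h ▸ hpS)
    rw [nr_rec hpp (hcl.1 p hpS).2 h5 (by norm_num) hne]
    have ha5 : aa 5 = 0 := by unfold aa; norm_num
    rw [ha5, mul_zero, add_zero]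
    have hj := jac_nr h5 hpp (Ne.symm hne)
    have hp5 : p % 5 ≠ 0 := by
      intro h0
      exact hne ((Nat.prime_dvd_prime_iff_eq h5 hpp).1 (Nat.dvd_of_mod_eq_zero h0)).symm
    rw [jac_five hp5] at hj
    have hinj : ∀ s t : ZMod 2, sI s = sI t → s = t := by decide
    exact (hinj _ _ hj).symm
  -- the local conditions at the primes dividing `D`
  have hloc : ∀ p ∈ S, ∀ [Fact p.Prime], lam p e1 + x p * (aa p + lam p (D : ℤ)) = 0 ∧
      lam p e2 + x p * aa p + y p * lam p (D : ℤ) = 0 := by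
    intro p hpS _
    have hpp := (hcl.1 p hpS).1
    obtain ⟨p2, p3, p5⟩ := pf_ge hF hpS
    have hdvd : (p : ℤ) ∣ (D : ℤ) := by exact_mod_cast Nat.dvd_of_mem_primeFactors hpS
    have hDq : Squarefree (D : ℤ) := by
      rw [← Int.squarefree_natAbs]
      simpa using hD
    have hD0 : (D : ℤ) ≠ 0 := hDq.ne_zero
    have hvD : padicValInt p (D : ℤ) = 1 := val_one hDq hdvd
    have hxp : x p = if (p : ℤ) ∣ e1 then 1 else 0 := by
      simp only [hx]
      congr 1
      exact propext (mem_pf q1.ne_zero hpp)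
    have hyp : y p = if (p : ℤ) ∣ e2 then 1 else 0 := by
      simp only [hy]
      congr 1
      exact propext (mem_pf q2.ne_zero hpp)
    have c1 : IsSquare (e1 : ℚ_[p]) → lam p e1 + x p * (aa p + lam p (D : ℤ)) = 0 ∧ x p = 0 := by
      intro h
      obtain ⟨a1, a2⟩ := lam_sq q1.ne_zero h
      have a3 := (val_parity q1).1 a2
      rw [hxp, if_neg a3, a1]
      simp
    have c2 : IsSquare ((e1 * -D : ℤ) : ℚ_[p]) → lam p e1 + x p * (aa p + lam p (D : ℤ)) = 0 ∧
        x p = 1 := by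
      intro h
      obtain ⟨a1, a2⟩ := lam_sq (mul_ne_zero q1.ne_zero (neg_ne_zero.2 hD0)) h
      rw [padicValInt.mul q1.ne_zero (neg_ne_zero.2 hD0)] at a2
      have a4 : padicValInt p (-(D : ℤ)) = 1 := by
        unfold padicValInt
        rw [Int.natAbs_neg]
        exact hvD
      rw [a4, Nat.even_add_one] at a2
      have a3 : (p : ℤ) ∣ e1 := by
        by_contra hcon
        exact a2 ((val_parity q1).2 hcon)
      have a5 : lam p (-(D : ℤ)) = aa p + lam p (D : ℤ) := by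
        have : (-(D : ℤ)) = (-1) * (D : ℤ) := by ring
        rw [this, lam_mul p2 (by norm_num) hD0, lam_neg_one]
      rw [lam_mul p2 q1.ne_zero (neg_ne_zero.2 hD0), a5] at a1
      rw [hxp, if_pos a3]
      exact ⟨by rw [one_mul]; exact a1, rfl⟩
    -- the second coordinate
    have d1 : IsSquare (e2 : ℚ_[p]) → lam p e2 = 0 ∧ y p = 0 := by
      intro h
      obtain ⟨a1, a2⟩ := lam_sq q2.ne_zero h
      have a3 := (val_parity q2).1 a2
      rw [hyp, if_neg a3]
      exact ⟨a1, rfl⟩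
    have d2 : IsSquare ((e2 * D : ℤ) : ℚ_[p]) → lam p e2 + lam p (D : ℤ) = 0 ∧ y p = 1 := by
      intro h
      obtain ⟨a1, a2⟩ := lam_sq (mul_ne_zero q2.ne_zero hD0) h
      rw [padicValInt.mul q2.ne_zero hD0, hvD, Nat.even_add_one] at a2
      have a3 : (p : ℤ) ∣ e2 := by
        by_contra hcon
        exact a2 ((val_parity q2).2 hcon)
      rw [lam_mul p2 q2.ne_zero hD0] at a1
      rw [hyp, if_pos a3]
      exact ⟨a1, rfl⟩
    have d3 : IsSquare ((-e2 : ℤ) : ℚ_[p]) → lam p e2 + aa p = 0 ∧ y p = 0 := by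
      intro h
      obtain ⟨a1, a2⟩ := lam_sq (neg_ne_zero.2 q2.ne_zero) h
      have a4 : padicValInt p (-e2) = padicValInt p e2 := by
        unfold padicValInt
        rw [Int.natAbs_neg]
      rw [a4] at a2
      have a3 := (val_parity q2).1 a2
      have a5 : lam p (-e2) = aa p + lam p e2 := by
        have : (-e2) = (-1) * e2 := by ring
        rw [this, lam_mul p2 (by norm_num) q2.ne_zero, lam_neg_one]
      rw [a5] at a1
      rw [hyp, if_neg a3]
      exact ⟨by rw [add_comm]; exact a1, rfl⟩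
    have d4 : IsSquare ((-(e2 * D) : ℤ) : ℚ_[p]) → lam p e2 + aa p + lam p (D : ℤ) = 0 ∧
        y p = 1 := by
      intro h
      have hne : e2 * (D : ℤ) ≠ 0 := mul_ne_zero q2.ne_zero hD0
      obtain ⟨a1, a2⟩ := lam_sq (neg_ne_zero.2 hne) h
      have a4 : padicValInt p (-(e2 * (D : ℤ))) = padicValInt p (e2 * D) := by
        unfold padicValInt
        rw [Int.natAbs_neg]
      rw [a4, padicValInt.mul q2.ne_zero hD0, hvD, Nat.even_add_one] at a2
      have a3 : (p : ℤ) ∣ e2 := by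
        by_contra hcon
        exact a2 ((val_parity q2).2 hcon)
      have a5 : lam p (-(e2 * (D : ℤ))) = aa p + (lam p e2 + lam p (D : ℤ)) := by
        have : (-(e2 * (D : ℤ))) = (-1) * (e2 * D) := by ring
        rw [this, lam_mul p2 (by norm_num) hne, lam_neg_one, lam_mul p2 q2.ne_zero hD0]
      rw [a5] at a1
      rw [hyp, if_pos a3]
      exact ⟨by linear_combination a1, rfl⟩
    rcases loc_bad p2 p3 p5 hDq hdvd (hp p) with ⟨b1, b2⟩ | ⟨b1, b2⟩ | ⟨b1, b2⟩ | ⟨b1, b2⟩
    · obtain ⟨r1, r2⟩ := c1 b1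
      obtain ⟨r3, r4⟩ := d1 b2
      refine ⟨r1, ?_⟩
      rw [r2, r4, r3]; ring
    · obtain ⟨r1, r2⟩ := c1 b1
      obtain ⟨r3, r4⟩ := d2 b2
      refine ⟨r1, ?_⟩
      rw [r2, r4]; linear_combination r3
    · obtain ⟨r1, r2⟩ := c2 b1
      obtain ⟨r3, r4⟩ := d3 b2
      refine ⟨r1, ?_⟩
      rw [r2, r4]; linear_combination r3
    · obtain ⟨r1, r2⟩ := c2 b1
      obtain ⟨r3, r4⟩ := d4 b2
      refine ⟨r1, ?_⟩
      rw [r2, r4]; linear_combination r3
  -- the equations
  have hlamD : ∀ p ∈ S, ∀ [Fact p.Prime], lam p (D : ℤ) = ∑ q ∈ S, nr p q := by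
    intro p hpS _
    have h := lam_prod (p := p) (pf_ge hF hpS).1 S (fun q hq => (hcl.1 q hq).1)
    rw [hS, Nat.prod_primeFactors_of_squarefree hD] at h
    exact h
  have E1 : ∀ p ∈ S, ∑ q ∈ S, nr p q * (x q + x p) + aa p * x p + ε * bb p + σ * aa p = 0 := by
    intro p hpS
    have hfp : Fact p.Prime := ⟨(hcl.1 p hpS).1⟩
    have h := (hloc p hpS).1
    rw [lam_sqf (pf_ge hF hpS).1 q1, hlamD p hpS, sum1 (fun q => nr p q), nr5 p hpS] at h
    have e : ∑ q ∈ S, nr p q * (x q + x p) =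
        ∑ q ∈ S, nr p q * x q + (∑ q ∈ S, nr p q) * x p := by
      rw [sum_mul, ← sum_add_distrib]
      exact sum_congr rfl fun q _ => by ring
    rw [e]
    linear_combination h
  have E2 : ∀ p ∈ S, ∑ q ∈ S, nr p q * (y q + y p) + aa p * x p + σ * aa p = 0 := by
    intro p hpS
    have hfp : Fact p.Prime := ⟨(hcl.1 p hpS).1⟩
    have h := (hloc p hpS).2
    rw [lam_sqf (pf_ge hF hpS).1 q2, hlamD p hpS, sum2 (fun q => nr p q), hσ2] at h
    have e : ∑ q ∈ S, nr p q * (y q + y p) =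
        ∑ q ∈ S, nr p q * y q + (∑ q ∈ S, nr p q) * y p := by
      rw [sum_mul, ← sum_add_distrib]
      exact sum_congr rfl fun q _ => by ring
    rw [e]
    linear_combination h
  have E3 : ∑ q ∈ S, bb q * y q = 0 := by
    have h5 : ¬ ((5 : ℕ) : ℤ) ∣ e2 := by exact_mod_cast t52
    have h6 : lam 5 e2 = 0 := by
      rw [lam_unit h5, cl_zero_iff]
      exact t5s
    rw [lam_sqf (by norm_num) q2] at h6
    have ha5 : aa 5 = 0 := by unfold aa; norm_num
    rw [ha5, mul_zero, zero_add, sum2 (fun q => nr 5 q)] at h6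
    rw [← h6]
    refine sum_congr rfl fun q hq => ?_
    have hqp := (hcl.1 q hq).1
    have hne : q ≠ 5 := fun h => h5S (h ▸ hq)
    have h7 := nr_rec (p := 5) (by norm_num) (by norm_num) hqp (hcl.1 q hq).2 (Ne.symm hne)
    rw [nr5 q hq, ha5, zero_mul, add_zero] at h7
    rw [h7]
  have E4 : ∑ q ∈ S, aa q * (x q + y q) = 0 := by
    have ha5 : aa 5 = 0 := by unfold aa; norm_num
    have s1 := sum1 aa
    have s2 := sum2 aa
    rw [ha5, mul_zero, zero_add] at s1
    have e : ∑ q ∈ S, aa q * (x q + y q) = ∑ q ∈ P1, aa q + ∑ q ∈ P2, aa q := by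
      rw [s1, s2, ← sum_add_distrib]
      exact sum_congr rfl fun q _ => by ring
    rw [e]
    have o1 : ∀ q ∈ P1, q % 4 = 1 ∨ q % 4 = 3 := by
      intro q hq
      refine odd_cases (hP1p q hq) ?_
      rintro rfl
      exact t21 (by exact_mod_cast (mem_pf q1.ne_zero Nat.prime_two).1 hq)
    have o2 : ∀ q ∈ P2, q % 4 = 1 ∨ q % 4 = 3 := by
      intro q hq
      refine odd_cases (hP2p q hq) ?_
      rintro rfl
      exact t22 (by exact_mod_cast (mem_pf q2.ne_zero Nat.prime_two).1 hq)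
    have n1 : ∏ q ∈ P1, q = e1.natAbs :=
      Nat.prod_primeFactors_of_squarefree (Int.squarefree_natAbs.2 q1)
    have n2 : ∏ q ∈ P2, q = e2.natAbs :=
      Nat.prod_primeFactors_of_squarefree (Int.squarefree_natAbs.2 q2)
    have n3 : (e1.natAbs * e2.natAbs) % 4 = 1 := by
      have : ((e1.natAbs * e2.natAbs : ℕ) : ℤ) = e1 * e2 := by
        rw [← Int.natAbs_mul]
        exact Int.natAbs_of_nonneg hsgn.le
      omega
    rw [Nat.mul_mod] at n3
    have r1 := prod_mod P1 o1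
    have r2 := prod_mod P2 o2
    rw [n1] at r1
    rw [n2] at r2
    rcases r1 with ⟨a1, a2⟩ | ⟨a1, a2⟩ <;> rcases r2 with ⟨b1, b2⟩ | ⟨b1, b2⟩ <;>
      rw [a1, b1] at n3 <;> rw [a2, b2]
    · rfl
    · exact absurd n3 (by norm_num)
    · exact absurd n3 (by norm_num)
    · decide
  have hSne : S.Nonempty := by
    rw [hS, Nat.nonempty_primeFactors]
    omega
  obtain ⟨hε0, hx0, hy0⟩ := lin hSne hcl hgd x y ε σ E1 E2 E3 E4
  -- the integers
  have f1 := sqf_eq q1
  have f2 := sqf_eq q2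
  rw [← hP1] at f1
  rw [← hP2] at f2
  have h5P1 : 5 ∉ P1 := by
    intro h5
    rw [hε, if_pos h5] at hε0
    exact one_ne_zero hε0
  have hDprod : ∏ q ∈ S, q = D := Nat.prod_primeFactors_of_squarefree hD
  have hP2cases : P2 = ∅ ∨ P2 = S := by
    rcases hy0 with h | h
    · left
      refine eq_empty_of_forall_notMem fun q hq => ?_
      have := h q (hsub2 hq)
      simp only [hy] at this
      rw [if_pos hq] at this
      exact one_ne_zero this
    · right
      refine Subset.antisymm hsub2 fun q hq => ?_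
      have := h q hq
      simp only [hy] at this
      by_contra hcon
      rw [if_neg hcon] at this
      exact zero_ne_one this
  by_cases hneg : e1 < 0
  · have hneg2 := hsg.2 hneg
    have hP1S : P1 = S := by
      refine Subset.antisymm (fun q hq => hsub1 q hq fun h => h5P1 (h ▸ hq)) fun q hq => ?_
      have := hx0 q hq
      simp only [hx] at this
      rw [hσ, if_pos hneg] at this
      by_contra hcon
      rw [if_neg hcon] at this
      exact zero_ne_one this
    rw [hP1S, hDprod, if_pos hneg] at f1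
    rw [if_pos hneg2] at f2
    rcases hP2cases with h | h
    · rw [h, prod_empty] at f2
      right; right; left
      exact ⟨by rw [f1]; ring, by rw [f2]; norm_num⟩
    · rw [h, hDprod] at f2
      right; right; right
      exact ⟨by rw [f1]; ring, by rw [f2]; ring⟩
  · have hneg2 : ¬ e2 < 0 := fun h => hneg (hsg.1 h)
    have hP1S : P1 = ∅ := by
      refine eq_empty_of_forall_notMem fun q hq => ?_
      have := hx0 q (hsub1 q hq fun h => h5P1 (h ▸ hq))
      simp only [hx] at this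
      rw [hσ, if_neg hneg, if_pos hq] at this
      exact one_ne_zero this
    rw [hP1S, prod_empty, if_neg hneg] at f1
    rw [if_neg hneg2] at f2
    rcases hP2cases with h | h
    · rw [h, prod_empty] at f2
      left
      exact ⟨by rw [f1]; norm_num, by rw [f2]; norm_num⟩
    · rw [h, hDprod] at f2
      right; left
      exact ⟨by rw [f1]; norm_num, by rw [f2]; ring⟩

end Pool.Agent.H3.X15
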