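import Pool.Graph.R_pool_sql_team_seeded_620a6dc7.Helper449_X15.BOX
import Pool.Graph.R_pool_sql_team_seeded_620a6dc7.H757_X15.DN.Crit
import Pool.Graph.R_pool_sql_team_seeded_63374d34.N875.X15.Lin

/-!
# The two-descent: linear algebra
-/

set_option autoImplicit false

namespace Pool.Agent.H3.X15

open Finset Matrix
open Pool.Agent.Y703.CQ (nr)
open Pool.Agent.H757_X15.DD
open Pool.Agent.H757_X15.DD.Box (nr_self nr_rec sum_aa odd_cases)

open scoped Classical

/-- the matrix of the criterion -/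
noncomputable def Mx (S : Finset ℕ) : Matrix S S (ZMod 2) := fun p q =>
  if p = q then ∑ r ∈ S, nr p r + aa p else nr p q

theorem Mx_mulVec (S : Finset ℕ) (v : ℕ → ZMod 2) (p : S) :
    (Mx S).mulVec (fun q : S => v q) p = ∑ q ∈ S, nr p q * (v q + v p) + aa p * v p := by
  have h1 : (Mx S).mulVec (fun q : S => v q) p =
      ∑ q : S, (nr p q * v q + if p = q then (∑ r ∈ S, nr p r + aa p) * v p else 0) := by
    show ∑ q : S, Mx S p q * v q = _
    refine sum_congr rfl fun q _ => ?_
    unfold Mx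
    by_cases h : p = q
    · subst h
      rw [if_pos rfl, if_pos rfl, nr_self]
      ring
    · rw [if_neg h, if_neg h, add_zero]
  rw [h1, sum_add_distrib, sum_ite_eq]
  simp only [mem_univ, if_true]
  rw [sum_coe_sort S (fun q => nr p q * v q)]
  have h2 : ∑ q ∈ S, nr p q * (v q + v p) = ∑ q ∈ S, nr p q * v q + (∑ q ∈ S, nr p q) * v p := by
    rw [sum_mul, ← sum_add_distrib]
    refine sum_congr rfl fun q _ => by ring
  rw [h2]
  ring

theorem MxT_mulVec (S : Finset ℕ) (hS : ∀ p ∈ S, p.Prime ∧ p ≠ 2) (v : ℕ → ZMod 2) (p : S) :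
    (Mx S).transpose.mulVec (fun q : S => v q) p =
      ∑ q ∈ S, nr p q * (v q + v p) + aa p * ∑ q ∈ S, aa q * v q := by
  have haa : ∀ n, aa n * aa n = aa n := fun n => by
    generalize aa n = t
    revert t
    decide
  have h1 : (Mx S).transpose.mulVec (fun q : S => v q) p =
      ∑ q : S, ((nr p q + aa p * aa q) * v q +
        if p = q then (∑ r ∈ S, nr p r) * v p else 0) := by
    show ∑ q : S, Mx S q p * v q = _
    refine sum_congr rfl fun q _ => ?_
    unfold Mx
    by_cases h : p = q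
    · subst h
      rw [if_pos rfl, if_pos rfl, nr_self, haa]
      ring
    · rw [if_neg (fun h' => h h'.symm), if_neg h, add_zero,
        nr_rec (hS q q.2).1 (hS q q.2).2 (hS p p.2).1 (hS p p.2).2
          (fun h' => h (Subtype.ext h'.symm))]
      ring
  rw [h1, sum_add_distrib, sum_ite_eq]
  simp only [mem_univ, if_true]
  rw [sum_coe_sort S (fun q => (nr p q + aa p * aa q) * v q)]
  have h2 : ∑ q ∈ S, nr p q * (v q + v p) = ∑ q ∈ S, nr p q * v q + (∑ q ∈ S, nr p q) * v p := by
    rw [sum_mul, ← sum_add_distrib]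
    refine sum_congr rfl fun q _ => by ring
  have h3 : ∑ q ∈ S, (nr p q + aa p * aa q) * v q =
      ∑ q ∈ S, nr p q * v q + aa p * ∑ q ∈ S, aa q * v q := by
    rw [mul_sum, ← sum_add_distrib]
    refine sum_congr rfl fun q _ => by ring
  rw [h2, h3]
  ring

/-- the product of numbers prime to `5` modulo `5` -/
theorem sum_bb {S : Finset ℕ} (h5 : ∀ p ∈ S, p % 5 ≠ 0) (h : Fm (∏ p ∈ S, p)) :
    ∑ p ∈ S, bb p = 0 := by
  rw [← sI_eq, sI_sum]
  have h1 : ∏ p ∈ S, sI (bb p) = jacobiSym ((∏ p ∈ S, p : ℕ) : ℤ) 5 := by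
    have : ∀ T : Finset ℕ, (∀ p ∈ T, p % 5 ≠ 0) →
        ∏ p ∈ T, sI (bb p) = jacobiSym ((∏ p ∈ T, p : ℕ) : ℤ) 5 := by
      intro T
      induction T using Finset.induction_on with
      | empty => intro _; simp
      | insert a T ha ih =>
        intro hT
        rw [prod_insert ha, prod_insert ha, Nat.cast_mul, jacobiSym.mul_left,
          ih (fun p hp => hT p (mem_insert_of_mem hp)), jac_five (hT a (mem_insert_self _ _))]
    exact this S h5
  rw [h1, jacobiSym.mod_left]
  have h2 : ((∏ p ∈ S, p : ℕ) : ℤ) % ((5 : ℕ) : ℤ) = (((∏ p ∈ S, p) % 5 : ℕ) : ℤ) := by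
    push_cast; rfl
  rw [h2]
  have h3 : (∏ p ∈ S, p) % 5 = 1 ∨ (∏ p ∈ S, p) % 5 = 4 := by
    rcases h with h | h <;> omega
  rcases h3 with h3 | h3 <;> rw [h3] <;> norm_num

theorem five_of_cl {S : Finset ℕ} (hS : Cl S) : ∀ p ∈ S, p % 5 ≠ 0 := by
  intro p hp h0
  have h1 : p ∣ ∏ p ∈ S, p := dvd_prod_of_mem _ hp
  have h2 : 5 ∣ ∏ p ∈ S, p := (Nat.dvd_of_mod_eq_zero h0).trans h1
  rcases hS.2 with h | h <;> omega

/-- **The linear algebra of the two-descent.** -/
theorem lin {S : Finset ℕ} (hne : S.Nonempty) (hcl : Cl S) (hgd : Gd S) (x y : ℕ → ZMod 2)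
    (ε σ : ZMod 2)
    (h1 : ∀ p ∈ S, ∑ q ∈ S, nr p q * (x q + x p) + aa p * x p + ε * bb p + σ * aa p = 0)
    (h2 : ∀ p ∈ S, ∑ q ∈ S, nr p q * (y q + y p) + aa p * x p + σ * aa p = 0)
    (h3 : ∑ q ∈ S, bb q * y q = 0) (h4 : ∑ q ∈ S, aa q * (x q + y q) = 0) :
    ε = 0 ∧ (∀ p ∈ S, x p = σ) ∧ ((∀ p ∈ S, y p = 0) ∨ ∀ p ∈ S, y p = 1) := by
  have hS := hcl.1
  have h5 := five_of_cl hcl
  have haa := sum_aa hcl
  have hbb := sum_bb h5 hcl.2
  have two : ∀ t : ZMod 2, t + t = 0 := by decide
  have addeq : ∀ s t : ZMod 2, s + t = 0 → s = t := by decide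
  -- a function on `S`
  have hext : ∀ v : S → ZMod 2, ∃ w : ℕ → ZMod 2, v = fun q : S => w q := by
    intro v
    refine ⟨fun n => if h : n ∈ S then v ⟨n, h⟩ else 0, ?_⟩
    funext q
    show v q = if h : (q : ℕ) ∈ S then v ⟨q, h⟩ else 0
    rw [dif_pos q.2]
  -- the solutions of the criterion
  have hsol : ∀ w : ℕ → ZMod 2, (Mx S).mulVec (fun q : S => w q) = 0 → ∑ q ∈ S, bb q * w q = 0 →
      ∀ p ∈ S, w p = 0 := by
    intro w hw hb
    refine hgd w ⟨fun p hp => ?_, hb⟩
    have := congrFun hw ⟨p, hp⟩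
    rw [Mx_mulVec] at this
    exact this
  -- the vector of ones
  have hT1 : (Mx S).transpose.mulVec (fun _ : S => (1 : ZMod 2)) = 0 := by
    funext p
    have h := MxT_mulVec S hS (fun _ => 1) p
    simp only [two, mul_zero, sum_const_zero, mul_one, haa] at h
    exact h
  have hone : (fun _ : S => (1 : ZMod 2)) ≠ 0 := by
    obtain ⟨p, hp⟩ := hne
    intro h0
    have := congrFun h0 ⟨p, hp⟩
    exact one_ne_zero this
  -- the kernel
  have hdet : (Mx S).det = 0 := by
    rw [← det_transpose]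
    exact Matrix.exists_mulVec_eq_zero_iff.1 ⟨_, hone, hT1⟩
  obtain ⟨m', hm0, hm⟩ := Matrix.exists_mulVec_eq_zero_iff.2 hdet
  obtain ⟨m, rfl⟩ := hext m'
  have hbm : ∑ q ∈ S, bb q * m q = 1 := by
    have h01 : ∀ t : ZMod 2, t ≠ 0 → t = 1 := by decide
    refine h01 _ fun h0 => hm0 ?_
    funext q
    exact hsol m hm h0 q q.2
  have hker : ∀ v : S → ZMod 2, (Mx S).transpose.mulVec v = 0 → v = 0 ∨ v = fun _ => 1 := by
    refine Pool.Agent.N875.X15.ker_transpose (Mx S).transpose (fun q : S => m q) ?_ _ hone hT1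
    intro v hv
    rw [transpose_transpose] at hv
    obtain ⟨w, rfl⟩ := hext v
    by_cases hb : ∑ q ∈ S, bb q * w q = 0
    · left
      funext q
      exact hsol w hv hb q q.2
    · right
      have h01 : ∀ t : ZMod 2, t ≠ 0 → t = 1 := by decide
      have hb1 := h01 _ hb
      have h6 : (Mx S).mulVec (fun q : S => w q + m q) = 0 := by
        have : (fun q : S => w q + m q) = (fun q : S => w q) + fun q : S => m q := rfl
        rw [this, mulVec_add, hv, hm, add_zero]
      have h7 : ∑ q ∈ S, bb q * (w q + m q) = 0 := by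
        have : ∑ q ∈ S, bb q * (w q + m q) = ∑ q ∈ S, bb q * w q + ∑ q ∈ S, bb q * m q := by
          rw [← sum_add_distrib]
          exact sum_congr rfl fun q _ => by ring
        rw [this, hb1, hbm]
        decide
      funext q
      exact addeq _ _ (hsol (fun q => w q + m q) h6 h7 q q.2)
  -- normalization
  set x' : ℕ → ZMod 2 := fun q => x q + σ with hx'
  set z : ℕ → ZMod 2 := fun q => x q + σ + y q with hz
  have k1 : ∀ p : S, (Mx S).mulVec (fun q : S => x' q) p = ε * bb p := by
    intro p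
    rw [Mx_mulVec]
    have h := h1 p p.2
    have e : ∀ q : ℕ, nr p q * (x' q + x' p) = nr p q * (x q + x p) := by
      intro q
      have : x' q + x' p = x q + x p := by
        simp only [hx']
        have := two σ
        linear_combination this
      rw [this]
    rw [sum_congr rfl fun q _ => e q]
    refine addeq _ _ ?_
    simp only [hx']
    linear_combination h
  have hza : ∑ q ∈ S, aa q * z q = 0 := by
    have : ∑ q ∈ S, aa q * z q = ∑ q ∈ S, aa q * (x q + y q) + σ * ∑ q ∈ S, aa q := by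
      rw [mul_sum, ← sum_add_distrib]
      refine sum_congr rfl fun q _ => ?_
      simp only [hz]
      ring
    rw [this, h4, haa, mul_zero, add_zero]
  have k2 : ∀ p : S, (Mx S).transpose.mulVec (fun q : S => z q) p = ε * bb p := by
    intro p
    rw [MxT_mulVec S hS, hza, mul_zero, add_zero]
    have ha := h1 p p.2
    have hb := h2 p p.2
    have e : ∑ q ∈ S, nr p q * (z q + z p) =
        ∑ q ∈ S, nr p q * (x q + x p) + ∑ q ∈ S, nr p q * (y q + y p) := by
      rw [← sum_add_distrib]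
      refine sum_congr rfl fun q _ => ?_
      have : z q + z p = (x q + x p) + (y q + y p) := by
        simp only [hz]
        have := two σ
        linear_combination this
      rw [this]
      ring
    rw [e]
    refine addeq _ _ ?_
    have t1 := two (aa p * x p)
    have t2 := two (σ * aa p)
    linear_combination ha + hb - t1 - t2
  -- `ε = 0`
  have hε : ε = 0 := by
    by_contra hε
    have h01 : ∀ t : ZMod 2, t ≠ 0 → t = 1 := by decide
    have hε1 := h01 _ hε
    have h6 : (fun q : S => z q) ⬝ᵥ (Mx S).mulVec (fun q : S => m q) =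
        (Mx S).transpose.mulVec (fun q : S => z q) ⬝ᵥ (fun q : S => m q) := by
      rw [dotProduct_mulVec, mulVec_transpose]
    rw [hm, dotProduct_zero] at h6
    have h7 : (Mx S).transpose.mulVec (fun q : S => z q) ⬝ᵥ (fun q : S => m q) =
        ∑ q ∈ S, bb q * m q := by
      show ∑ q : S, (Mx S).transpose.mulVec (fun q : S => z q) q * m q = _
      rw [← sum_coe_sort S (fun q => bb q * m q)]
      refine sum_congr rfl fun q _ => ?_
      rw [k2, hε1, one_mul]
    rw [h7, hbm] at h6
    exact zero_ne_one h6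
  subst hε
  have k1' : (Mx S).mulVec (fun q : S => x' q) = 0 := by
    funext p
    rw [k1, zero_mul]; rfl
  have k2' : (Mx S).transpose.mulVec (fun q : S => z q) = 0 := by
    funext p
    rw [k2, zero_mul]; rfl
  -- `z` is constant
  have hzc : ∃ t : ZMod 2, ∀ p ∈ S, z p = t := by
    rcases hker _ k2' with h | h
    · exact ⟨0, fun p hp => congrFun h ⟨p, hp⟩⟩
    · exact ⟨1, fun p hp => congrFun h ⟨p, hp⟩⟩
  obtain ⟨t, ht⟩ := hzc
  have hx0 : ∀ p ∈ S, x' p = 0 := by
    refine hsol x' k1' ?_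
    have h6 : ∑ q ∈ S, bb q * x' q = ∑ q ∈ S, bb q * z q + ∑ q ∈ S, bb q * y q := by
      rw [← sum_add_distrib]
      refine sum_congr rfl fun q _ => ?_
      simp only [hx', hz]
      have := two (bb q * y q)
      linear_combination -this
    have h7 : ∑ q ∈ S, bb q * z q = t * ∑ q ∈ S, bb q := by
      rw [mul_sum]
      exact sum_congr rfl fun q hq => by rw [ht q hq, mul_comm]
    rw [h6, h7, hbb, h3]
    ring
  refine ⟨rfl, fun p hp => addeq _ _ (hx0 p hp), ?_⟩
  have hy : ∀ p ∈ S, y p = t := by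
    intro p hp
    have a1 := ht p hp
    have a2 := hx0 p hp
    simp only [hz] at a1
    simp only [hx'] at a2
    rw [a2, zero_add] at a1
    exact a1
  have h01 : t = 0 ∨ t = 1 := by
    clear ht hy
    revert t
    decide
  rcases h01 with rfl | rfl
  · exact Or.inl hy
  · exact Or.inr hy

end Pool.Agent.H3.X15
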