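import Pool.Agent.H3.X15.Loc
import Pool.Agent.H3.X15.LinA
import Pool.Graph.R_pool_sql_team_seeded_620a6dc7.H757_X15.KS.SGa

/-!
# The quadratic character of the unit part of an integer
-/

set_option autoImplicit false

namespace Pool.Agent.H3.X15

open Finset
open Pool.Agent.Y703.CQ (nr)
open Pool.Agent.H757_X15.DD
open Pool.Agent.H757_X15.DD.Box (nr_self nr_rec sum_aa odd_cases prod_mod)
open Pool.Agent.H757_X15.KK.SG (cl cl_zero_iff cl_mul)
open Pool.Agent.N875.X15 (even_val sq_cancel)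

open scoped Classical

section

variable {p : ℕ} [hp : Fact p.Prime]

/-- the class of the unit part modulo squares -/
noncomputable def lam (p : ℕ) [Fact p.Prime] (n : ℤ) : ZMod 2 :=
  cl (((n / (p : ℤ) ^ (padicValInt p n) : ℤ)) : ZMod p)

/-- the unit part -/
theorem unit_eq {n u : ℤ} {k : ℕ} (hu : ¬ (p : ℤ) ∣ u) (h : n = (p : ℤ) ^ k * u) :
    padicValInt p n = k ∧ n / (p : ℤ) ^ (padicValInt p n) = u := by
  have hp0 : (p : ℤ) ≠ 0 := by exact_mod_cast hp.out.ne_zero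
  have hu0 : u ≠ 0 := by rintro rfl; exact hu (dvd_zero _)
  have h1 : padicValInt p n = k := by
    rw [h, padicValInt.mul (pow_ne_zero _ hp0) hu0, padicValInt.eq_zero_of_not_dvd hu, add_zero]
    have h2 : padicValInt p ((p : ℤ) ^ k) = k := by
      have : ((p : ℤ) ^ k) = ((p ^ k : ℕ) : ℤ) := by push_cast; rfl
      rw [this, padicValInt.of_nat, padicValNat.prime_pow]
    exact h2
  refine ⟨h1, ?_⟩
  rw [h1, h]
  exact Int.mul_ediv_cancel_left _ (pow_ne_zero _ hp0)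

theorem exists_unit {n : ℤ} (hn : n ≠ 0) : ∃ (k : ℕ) (u : ℤ), ¬ (p : ℤ) ∣ u ∧
    n = (p : ℤ) ^ k * u := by
  have hp0 : (p : ℤ) ≠ 0 := by exact_mod_cast hp.out.ne_zero
  have h1 : (p : ℤ) ^ padicValInt p n ∣ n := by
    have := (padicValInt_dvd_iff (p := p) (padicValInt p n) n).2 (Or.inr le_rfl)
    exact_mod_cast this
  obtain ⟨u, hu⟩ := h1
  refine ⟨padicValInt p n, u, ?_, hu⟩
  rintro ⟨v, rfl⟩
  have h2 : (p : ℤ) ^ (padicValInt p n + 1) ∣ n := ⟨v, by rw [pow_succ, mul_assoc]; exact hu⟩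
  have h3 := (padicValInt_dvd_iff (p := p) (padicValInt p n + 1) n).1 (by exact_mod_cast h2)
  rcases h3 with h3 | h3
  · exact hn h3
  · omega

theorem lam_eq {n u : ℤ} {k : ℕ} (hu : ¬ (p : ℤ) ∣ u) (h : n = (p : ℤ) ^ k * u) :
    lam p n = cl ((u : ℤ) : ZMod p) := by
  unfold lam
  rw [(unit_eq hu h).2]

theorem cast_ne {u : ℤ} (hu : ¬ (p : ℤ) ∣ u) : ((u : ℤ) : ZMod p) ≠ 0 := by
  intro h0
  exact hu ((ZMod.intCast_zmod_eq_zero_iff_dvd u p).1 h0)

theorem lam_mul (h2 : p ≠ 2) {m n : ℤ} (hm : m ≠ 0) (hn : n ≠ 0) :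
    lam p (m * n) = lam p m + lam p n := by
  obtain ⟨k, u, hu, e1⟩ := exists_unit (p := p) hm
  obtain ⟨l, v, hv, e2⟩ := exists_unit (p := p) hn
  have hpr : Prime (p : ℤ) := Nat.prime_iff_prime_int.1 hp.out
  have huv : ¬ (p : ℤ) ∣ u * v := fun h => (hpr.dvd_or_dvd h).elim hu hv
  rw [lam_eq hu e1, lam_eq hv e2, lam_eq (k := k + l) huv (by rw [e1, e2]; ring), Int.cast_mul,
    cl_mul h2 (cast_ne hu) (cast_ne hv)]

theorem lam_unit {u : ℤ} (hu : ¬ (p : ℤ) ∣ u) : lam p u = cl ((u : ℤ) : ZMod p) :=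
  lam_eq (k := 0) hu (by rw [pow_zero, one_mul])

theorem lam_one : lam p 1 = 0 := by
  have h : ¬ (p : ℤ) ∣ 1 := by
    intro h
    have := Int.natCast_dvd_natCast.1 (by exact_mod_cast h : (p : ℤ) ∣ ((1 : ℕ) : ℤ))
    exact hp.out.one_lt.ne' (Nat.dvd_one.1 this)
  rw [lam_unit h, cl_zero_iff]
  exact ⟨1, by simp⟩

theorem lam_prime {q : ℕ} (hq : q.Prime) : lam p (q : ℤ) = nr p q := by
  by_cases h : p = q
  · subst h
    have h1 : ¬ (p : ℤ) ∣ 1 := by
      intro h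
      have := Int.natCast_dvd_natCast.1 (by exact_mod_cast h : (p : ℤ) ∣ ((1 : ℕ) : ℤ))
      exact hp.out.one_lt.ne' (Nat.dvd_one.1 this)
    rw [nr_self, lam_eq (k := 1) h1 (by ring), cl_zero_iff]
    exact ⟨1, by simp⟩
  · have h1 : ¬ (p : ℤ) ∣ (q : ℤ) := by
      intro hd
      exact h ((Nat.prime_dvd_prime_iff_eq hp.out hq).1 (by exact_mod_cast hd))
    rw [lam_unit h1]
    unfold cl nr
    rw [Int.cast_natCast]
    by_cases hsq : IsSquare ((q : ℕ) : ZMod p)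
    · rw [if_pos hsq, if_pos hsq]
    · rw [if_neg hsq, if_neg hsq]

theorem lam_neg_one : lam p (-1) = aa p := by
  have h : ¬ (p : ℤ) ∣ (-1) := by
    intro h
    have h' := (dvd_neg.1 h)
    have := Int.natCast_dvd_natCast.1 (by exact_mod_cast h' : (p : ℤ) ∣ ((1 : ℕ) : ℤ))
    exact hp.out.one_lt.ne' (Nat.dvd_one.1 this)
  rw [lam_unit h]
  unfold cl aa
  have h3 := ZMod.exists_sq_eq_neg_one_iff (p := p)
  have e : (((-1 : ℤ)) : ZMod p) = -1 := by push_cast; rfl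
  rw [e]
  by_cases h4 : p % 4 = 3
  · rw [if_pos h4, if_neg]
    rw [h3]
    exact fun h => h h4
  · rw [if_neg h4, if_pos]
    rw [h3]
    exact h4

theorem lam_prod (h2 : p ≠ 2) (T : Finset ℕ) (hT : ∀ q ∈ T, q.Prime) :
    lam p ((∏ q ∈ T, q : ℕ) : ℤ) = ∑ q ∈ T, nr p q := by
  induction T using Finset.induction_on with
  | empty => simpa using lam_one
  | insert a T ha ih =>
    have h1 : ((∏ q ∈ T, q : ℕ) : ℤ) ≠ 0 := by
      have : ∏ q ∈ T, q ≠ 0 := prod_ne_zero_iff.2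
        fun q hq => (hT q (mem_insert_of_mem hq)).ne_zero
      exact_mod_cast this
    have h3 : (a : ℤ) ≠ 0 := by exact_mod_cast (hT a (mem_insert_self _ _)).ne_zero
    rw [prod_insert ha, sum_insert ha, Nat.cast_mul, lam_mul h2 h3 h1,
      lam_prime (hT a (mem_insert_self _ _)), ih fun q hq => hT q (mem_insert_of_mem hq)]

/-- a `p`-adic square -/
theorem lam_sq {n : ℤ} (hn : n ≠ 0) (h : IsSquare (n : ℚ_[p])) :
    lam p n = 0 ∧ Even (padicValInt p n) := by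
  obtain ⟨k, u, hu, e⟩ := exists_unit (p := p) hn
  have hk := (unit_eq hu e).1
  have hnK : (n : ℚ_[p]) ≠ 0 := by exact_mod_cast hn
  have hev := even_val hnK h
  rw [Padic.valuation_intCast] at hev
  have hev' : Even (padicValInt p n) := by exact_mod_cast hev
  refine ⟨?_, hev'⟩
  rw [lam_eq hu e, cl_zero_iff]
  apply sq_mod hu
  rw [hk] at hev'
  obtain ⟨j, hj⟩ := hev'
  have hp0 : (p : ℚ_[p]) ≠ 0 := by exact_mod_cast hp.out.ne_zero
  refine sq_cancel (x := ((p : ℚ_[p]) ^ j * (p : ℚ_[p]) ^ j))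
    (mul_ne_zero (pow_ne_zero _ hp0) (pow_ne_zero _ hp0)) ⟨_, rfl⟩ ?_
  have e2 : (p : ℚ_[p]) ^ j * (p : ℚ_[p]) ^ j * (u : ℚ_[p]) = (n : ℚ_[p]) := by
    rw [← pow_add, ← hj, e]
    push_cast
    rfl
  rwa [e2]

theorem val_one {n : ℤ} (hn : Squarefree n) (h : (p : ℤ) ∣ n) : padicValInt p n = 1 := by
  have := val_dvd (p := p) hn h
  rw [Padic.valuation_intCast] at this
  exact_mod_cast this

theorem val_parity {n : ℤ} (hn : Squarefree n) : (Even (padicValInt p n) ↔ ¬ (p : ℤ) ∣ n) := by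
  constructor
  · intro h hd
    rw [val_one hn hd] at h
    exact absurd h (by decide)
  · intro h
    rw [padicValInt.eq_zero_of_not_dvd h]
    exact ⟨0, rfl⟩

end

/-- a squarefree integer -/
theorem sqf_eq {e : ℤ} (he : Squarefree e) :
    e = (if e < 0 then -1 else 1) * ((∏ q ∈ e.natAbs.primeFactors, q : ℕ) : ℤ) := by
  have h1 : ∏ q ∈ e.natAbs.primeFactors, q = e.natAbs :=
    Nat.prod_primeFactors_of_squarefree (Int.squarefree_natAbs.2 he)
  rw [h1]
  split_ifs with h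
  · omega
  · omega

theorem lam_sqf {p : ℕ} [hp : Fact p.Prime] (h2 : p ≠ 2) {e : ℤ} (he : Squarefree e) :
    lam p e = (if e < 0 then 1 else 0) * aa p + ∑ q ∈ e.natAbs.primeFactors, nr p q := by
  have hpr : ∀ q ∈ e.natAbs.primeFactors, q.Prime := fun q hq => Nat.prime_of_mem_primeFactors hq
  have h0 : ((∏ q ∈ e.natAbs.primeFactors, q : ℕ) : ℤ) ≠ 0 := by
    have : ∏ q ∈ e.natAbs.primeFactors, q ≠ 0 :=
      prod_ne_zero_iff.2 fun q hq => (hpr q hq).ne_zero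
    exact_mod_cast this
  have key : lam p ((if e < 0 then -1 else 1) * ((∏ q ∈ e.natAbs.primeFactors, q : ℕ) : ℤ)) =
      (if e < 0 then 1 else 0) * aa p + ∑ q ∈ e.natAbs.primeFactors, nr p q := by
    split_ifs with h
    · rw [lam_mul h2 (by norm_num) h0, lam_neg_one, lam_prod h2 _ hpr, one_mul]
    · rw [one_mul, lam_prod h2 _ hpr, zero_mul, zero_add]
  rw [← sqf_eq he] at key
  exact key

end Pool.Agent.H3.X15
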