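import Pool.Agent.H3.X15.Comb
import Pool.Graph.R_seed8.H64R2.DC_MW

/-!
# Rank zero and no elements of order two in the Tate-Shafarevich group, under the criterion
-/

set_option autoImplicit false

namespace Pool.Agent.H3.X15

open WeierstrassCurve
open Pool.Agent.H757_X15.DD (Fm Crit)
open Pool.Agent.W262.SH (QB Pt act IsCoc IsCob LocTriv shaCoc cob Sha)
open Pool.Agent.TH841.SH

open scoped Classical

/-- the quadratic twist by `D` of `X_0(15)`, `y² = x³ - 12987 D² x - 263466 D³` -/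
def ED (D : ℕ) : WeierstrassCurve ℚ :=
  { a₁ := 0, a₂ := 0, a₃ := 0, a₄ := ((-12987 * (D : ℤ) ^ 2 : ℤ) : ℚ),
    a₆ := ((-263466 * (D : ℤ) ^ 3 : ℤ) : ℚ) }

theorem isR (D : ℕ) : IsR (ED D) (123 * ((D : ℤ) : ℚ)) (-21 * ((D : ℤ) : ℚ))
    (-102 * ((D : ℤ) : ℚ)) where
  h1 := rfl
  h2 := by
    show (0 : ℚ) = _
    ring
  h3 := rfl
  h4 := by
    show ((-12987 * (D : ℤ) ^ 2 : ℤ) : ℚ) = _
    push_cast
    ring
  h6 := by
    show ((-263466 * (D : ℤ) ^ 3 : ℤ) : ℚ) = _
    push_cast
    ring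

theorem fg (D : ℕ) (hD : D ≠ 0) : AddGroup.FG (ED D).toAffine.Point := by
  have h := Pool.Agent.H64R2.DCMW.mw (-12987 * (D : ℤ) ^ 2) (-263466 * (D : ℤ) ^ 3) (by
    have : (D : ℤ) ≠ 0 := by exact_mod_cast hD
    have h6 : (D : ℤ) ^ 6 ≠ 0 := pow_ne_zero _ this
    intro h0
    apply h6
    have e : 4 * (-12987 * (D : ℤ) ^ 2) ^ 3 + 27 * (-263466 * (D : ℤ) ^ 3) ^ 2 =
      (4 * (-12987) ^ 3 + 27 * 263466 ^ 2) * (D : ℤ) ^ 6 := by ring
    rw [e] at h0
    rcases mul_eq_zero.1 h0 with h | h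
    · norm_num at h
    · exact h)
  refine Pool.Agent.H64R2.DCMW.fg_of_eq ?_ h
  rfl

section two

variable {W : WeierstrassCurve ℚ} {a b c : ℚ}

/-- the points of order two -/
theorem card_two (h : IsR W a b c) (hab : a ≠ b) (hac : a ≠ c) (hbc : b ≠ c) :
    Nat.card {x : W.toAffine.Point // x + x = 0} = 4 := by
  have n1 : W.toAffine.Nonsingular a 0 := h.nons two_ne_zero hab hac hbc (by ring)
  have n2 : W.toAffine.Nonsingular b 0 := h.nons two_ne_zero hab hac hbc (by ring)
  have n3 : W.toAffine.Nonsingular c 0 := h.nons two_ne_zero hab hac hbc (by ring)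
  set Ta : W.toAffine.Point := .some a 0 n1
  set Tb : W.toAffine.Point := .some b 0 n2
  set Tc : W.toAffine.Point := .some c 0 n3
  have e : {x : W.toAffine.Point | x + x = 0} = (({0, Ta, Tb, Tc} : Finset W.toAffine.Point) :
      Set W.toAffine.Point) := by
    ext x
    simp only [Set.mem_setOf_eq, Finset.coe_insert, Finset.coe_singleton, Set.mem_insert_iff,
      Set.mem_singleton_iff]
    constructor
    · intro hx
      rcases h.tors two_ne_zero hx with rfl | ⟨_, rfl⟩ | ⟨_, rfl⟩ | ⟨_, rfl⟩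
      · exact Or.inl rfl
      · exact Or.inr (Or.inl rfl)
      · exact Or.inr (Or.inr (Or.inl rfl))
      · exact Or.inr (Or.inr (Or.inr rfl))
    · rintro (rfl | rfl | rfl | rfl)
      · exact add_zero 0
      · exact (h.add_self two_ne_zero n1).2 rfl
      · exact (h.add_self two_ne_zero n2).2 rfl
      · exact (h.add_self two_ne_zero n3).2 rfl
  have hc : Nat.card {x : W.toAffine.Point // x + x = 0} =
      Set.ncard {x : W.toAffine.Point | x + x = 0} := rfl
  have ne : ∀ {x x' : ℚ} (hx : W.toAffine.Nonsingular x 0) (hx' : W.toAffine.Nonsingular x' 0),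
      x ≠ x' → (Affine.Point.some x 0 hx : W.toAffine.Point) ≠ .some x' 0 hx' := by
    intro x x' hx hx' hne he
    rw [Affine.Point.some.injEq] at he
    exact hne he.1
  have ne0 : ∀ {x : ℚ} (hx : W.toAffine.Nonsingular x 0),
      (0 : W.toAffine.Point) ≠ .some x 0 hx := fun hx => (Affine.Point.some_ne_zero _).symm
  rw [hc, e, Set.ncard_coe_finset, Finset.card_insert_of_notMem, Finset.card_insert_of_notMem,
    Finset.card_insert_of_notMem, Finset.card_singleton]
  · simp only [Finset.mem_singleton]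
    exact ne n2 n3 hbc
  · simp only [Finset.mem_insert, Finset.mem_singleton, not_or]
    exact ⟨ne n1 n2 hab, ne n1 n3 hac⟩
  · simp only [Finset.mem_insert, Finset.mem_singleton, not_or]
    exact ⟨ne0 n1, ne0 n2, ne0 n3⟩

end two

/-- **Rank zero and `Ш[2] = 0` under the criterion.** -/
theorem rank_sha {D : ℕ} (hD : Squarefree D) (hF : Fm D) (h1 : D ≠ 1) (hC : Crit D) :
    Module.finrank ℤ (ED D).toAffine.Point = 0 ∧ Finite (ED D).toAffine.Point ∧
      ∀ x : Sha (ED D), x + x = 0 → x = 0 := by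
  have hD0 : ((D : ℤ) : ℚ) ≠ 0 := by
    have := hD.ne_zero
    exact_mod_cast this
  have hab : 123 * ((D : ℤ) : ℚ) ≠ -21 * ((D : ℤ) : ℚ) := by
    intro h
    apply hD0
    linarith
  have hac : 123 * ((D : ℤ) : ℚ) ≠ -102 * ((D : ℤ) : ℚ) := by
    intro h
    apply hD0
    linarith
  have hbc : -21 * ((D : ℤ) : ℚ) ≠ -102 * ((D : ℤ) : ℚ) := by
    intro h
    apply hD0
    linarith
  obtain ⟨hfin, hcard⟩ := card_sel_le (isR D) hab hac hbc
    ({((1 : ℤ), (1 : ℤ)), (1, (D : ℤ)), (-(D : ℤ), -1), (-(D : ℤ), -(D : ℤ))} : Finset (ℤ × ℤ))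
    (by
      intro e1 e2 q1 q2 hp hR
      have := pairs hD hF h1 hC q1 q2 (fun p _ => locU_of (hp p)) (locU_of hR)
      simp only [Finset.mem_insert, Finset.mem_singleton, Prod.mk.injEq]
      exact this)
  have hcard4 : Nat.card (selHom (ED D)) ≤ 4 := hcard.trans Finset.card_le_four
  have hfg := fg D hD.ne_zero
  obtain ⟨hs, hle⟩ := card_le4 (isR D) hab hac hbc hfg
  rw [card_two (isR D) hab hac hbc] at hle
  have hpos : 0 < Nat.card {x : Sha (ED D) // x + x = 0} := by
    have : Nonempty {x : Sha (ED D) // x + x = 0} := ⟨⟨0, add_zero 0⟩⟩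
    exact Nat.card_pos
  have hle2 := hle.trans hcard4
  have hr : Module.finrank ℤ (ED D).toAffine.Point = 0 := by
    by_contra hr
    have h2 : 2 ≤ 2 ^ Module.finrank ℤ (ED D).toAffine.Point := by
      calc 2 = 2 ^ 1 := by norm_num
        _ ≤ _ := Nat.pow_le_pow_right (by norm_num) (Nat.one_le_iff_ne_zero.2 hr)
    nlinarith
  refine ⟨hr, ?_, ?_⟩
  · have hmf : Module.Finite ℤ (ED D).toAffine.Point := Module.Finite.iff_addGroup_fg.mpr hfg
    have ht : Module.IsTorsion ℤ (ED D).toAffine.Point := by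
      rw [← Module.finrank_eq_zero_iff_isTorsion]
      exact hr
    exact Module.finite_of_fg_torsion _ ht
  · intro x hx
    rw [hr, pow_zero, one_mul] at hle2
    have h3 : Nat.card {x : Sha (ED D) // x + x = 0} ≤ 1 := by omega
    have h4 : Subsingleton {x : Sha (ED D) // x + x = 0} := by
      rw [← Finite.card_le_one_iff_subsingleton]
      exact h3
    have h5 := h4.elim ⟨x, hx⟩ ⟨0, add_zero 0⟩
    exact congrArg Subtype.val h5

end Pool.Agent.H3.X15
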