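import Pool.Agent.H3.X15.Alg4

/-!
# The Selmer homomorphisms of a curve with full rational two-torsion
-/

set_option autoImplicit false

namespace Pool.Agent.H3.X15

open WeierstrassCurve

open scoped Classical

open Pool.Agent.W262.SH (QB Pt act IsCoc IsCob LocTriv shaCoc cob Sha)
open Pool.Agent.TH841.SH

variable {W : WeierstrassCurve ℚ} {a b c : ℚ}

/-- **The rank, the Tate-Shafarevich group and the Selmer homomorphisms**, sharp form. -/
theorem card_le4 (h : IsR W a b c) (hab : a ≠ b) (hac : a ≠ c) (hbc : b ≠ c)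
    (hfg : AddGroup.FG W.toAffine.Point) [Finite (selHom W)] :
    Finite {x : Sha W // x + x = 0} ∧
    2 ^ Module.finrank ℤ W.toAffine.Point * Nat.card {x : W.toAffine.Point // x + x = 0} *
      Nat.card {x : Sha W // x + x = 0} ≤ Nat.card (selHom W) := by
  have e1 : Nat.card {x : Sha W // x + x = 0} = Nat.card (toSha h).range :=
    Nat.card_congr (Equiv.subtypeEquivRight (fun x => (toSha_range h hab hac hbc x).symm))
  have hfr : Finite (toSha h).range := Finite.of_surjective _ (toSha h).rangeRestrict_surjective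
  have e2 : Nat.card (selHom W) = Nat.card (toSha h).range * Nat.card (toSha h).ker := by
    rw [AddSubgroup.card_eq_card_quotient_mul_card_addSubgroup (toSha h).ker]
    congr 1
    exact Nat.card_congr (QuotientAddGroup.quotientKerEquivRange (toSha h)).toEquiv
  refine ⟨Finite.of_equiv _ (Equiv.subtypeEquivRight (fun x => toSha_range h hab hac hbc x)), ?_⟩
  rw [e1, e2, mul_comm]
  refine Nat.mul_le_mul_left _ ?_
  obtain ⟨j, hj, hjσ, hjf⟩ := exists_rat W
  have hinj : Function.Injective (algebraMap ℚ QB) := (algebraMap ℚ QB).injective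
  have : Fintype (toSha h).ker := Fintype.ofFinite _
  let R : (toSha h).ker → W.toAffine.Point → Prop := fun f g =>
    ∃ Q : Pt W QB, Q + Q = j g ∧ ∀ σ, (f.1 : (QB ≃ₐ[ℚ] QB) → Pt W QB) σ =
      act W σ.toAlgHom Q - Q
  let T : Finset W.toAffine.Point :=
    Finset.univ.image (fun f : (toSha h).ker => if hd : ∃ g, R f g then hd.choose else 0)
  have hT : T.card ≤ Nat.card (toSha h).ker := by
    rw [Nat.card_eq_fintype_card]
    exact Finset.card_image_le.trans_eq Finset.card_univ
  refine (rkb2 _ hfg T (fun g => ?_)).trans hT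
  obtain ⟨Q, hQ⟩ := (h.base QB).div two_ne_zero (hinj.ne hab) (hinj.ne hac) (hinj.ne hbc) (j g)
  have hsel : (fun σ : QB ≃ₐ[ℚ] QB => act W σ.toAlgHom Q - Q) ∈ selHom W := by
    apply cob_sel h
    intro σ
    have e3 : act W σ.toAlgHom Q - Q + (act W σ.toAlgHom Q - Q) =
      (act W σ.toAlgHom Q + act W σ.toAlgHom Q) - (Q + Q) := by abel
    rw [e3, ← map_add, ← hQ, hjσ, sub_self]
  have hker : (⟨_, hsel⟩ : selHom W) ∈ (toSha h).ker := by
    rw [toSha_ker]
    exact ⟨Q, fun σ => rfl⟩
  set f : (toSha h).ker := ⟨⟨_, hsel⟩, hker⟩ with hf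
  have hex : ∃ g', R f g' := ⟨g, Q, hQ.symm, fun σ => rfl⟩
  obtain ⟨Q', hQ', hf'⟩ := hex.choose_spec
  refine ⟨hex.choose, ?_, ?_⟩
  · refine Finset.mem_image.2 ⟨f, Finset.mem_univ _, ?_⟩
    rw [dif_pos hex]
  · have hfix : ∀ σ : QB ≃ₐ[ℚ] QB, act W σ.toAlgHom (Q - Q') = Q - Q' := by
      intro σ
      have e4 : act W σ.toAlgHom Q - Q = act W σ.toAlgHom Q' - Q' := hf' σ
      rw [map_sub]
      have e5 : act W σ.toAlgHom Q = act W σ.toAlgHom Q' - Q' + Q := by
        rw [← e4]
        abel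
      rw [e5]
      abel
    obtain ⟨q, hq⟩ := hjf _ hfix
    refine ⟨q, hj ?_⟩
    rw [map_add, map_add, hq, ← hQ', hQ]
    abel

/-- the converse inequality, if there are finitely many rational points and `Ш[2] = 0` -/
theorem card_ge4 (h : IsR W a b c) (hab : a ≠ b) (hac : a ≠ c) (hbc : b ≠ c)
    [Finite W.toAffine.Point] (hs : ∀ x : Sha W, x + x = 0 → x = 0) :
    Finite (selHom W) ∧
      Nat.card (selHom W) ≤ Nat.card {x : W.toAffine.Point // x + x = 0} := by
  obtain ⟨j, hj, hjσ, hjf⟩ := exists_rat W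
  have hinj : Function.Injective (algebraMap ℚ QB) := (algebraMap ℚ QB).injective
  set G := W.toAffine.Point with hG
  let dbl : G →+ G := AddMonoidHom.id G + AddMonoidHom.id G
  have hdbl : ∀ x : G, dbl x = x + x := fun x => rfl
  have c1 : Nat.card G = Nat.card (G ⧸ dbl.range) * Nat.card dbl.range :=
    AddSubgroup.card_eq_card_quotient_mul_card_addSubgroup _
  have c2 : Nat.card G = Nat.card dbl.range * Nat.card dbl.ker := by
    rw [AddSubgroup.card_eq_card_quotient_mul_card_addSubgroup dbl.ker]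
    congr 1
    exact Nat.card_congr (QuotientAddGroup.quotientKerEquivRange dbl).toEquiv
  have c3 : Nat.card (G ⧸ dbl.range) = Nat.card dbl.ker := by
    have hpos : 0 < Nat.card dbl.range := Nat.card_pos
    have : Nat.card (G ⧸ dbl.range) * Nat.card dbl.range =
        Nat.card dbl.ker * Nat.card dbl.range := by rw [← c1, c2, mul_comm]
    exact Nat.eq_of_mul_eq_mul_right hpos this
  have c4 : Nat.card dbl.ker = Nat.card {x : G // x + x = 0} :=
    Nat.card_congr (Equiv.subtypeEquivRight (fun x => Iff.rfl))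
  -- every Selmer homomorphism comes from a rational point
  have hpt : ∀ f : selHom W, ∃ (g : G) (Q : Pt W QB), Q + Q = j g ∧
      ∀ σ, (f : (QB ≃ₐ[ℚ] QB) → Pt W QB) σ = act W σ.toAlgHom Q - Q := by
    intro f
    have h1 : toSha h f = 0 := by
      apply hs
      rw [← toSha_range h hab hac hbc]
      exact ⟨f, rfl⟩
    obtain ⟨Q, hQ⟩ := (toSha_ker h f).1 h1
    have hfix : ∀ σ : QB ≃ₐ[ℚ] QB, act W σ.toAlgHom (Q + Q) = Q + Q := by
      intro σ
      have h2 := f.2.2.1 σ
      rw [hQ σ] at h2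
      have h3 : act W σ.toAlgHom Q + act W σ.toAlgHom Q - (Q + Q) = 0 := by
        rw [← h2]
        abel
      rw [map_add]
      exact sub_eq_zero.1 h3
    obtain ⟨g, hg⟩ := hjf _ hfix
    exact ⟨g, Q, hg.symm, hQ⟩
  choose g Q hQ hf using hpt
  let Ψ : selHom W → G ⧸ dbl.range := fun f => QuotientAddGroup.mk (g f)
  have hΨ : Function.Injective Ψ := by
    intro f f' he
    have he' : (QuotientAddGroup.mk (g f) : G ⧸ dbl.range) = QuotientAddGroup.mk (g f') := he
    rw [QuotientAddGroup.eq] at he'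
    obtain ⟨q, hq⟩ := he'
    rw [hdbl] at hq
    have e1 : (Q f + j q - Q f') + (Q f + j q - Q f') = 0 := by
      have : (Q f + j q - Q f') + (Q f + j q - Q f') =
        (Q f + Q f) + (j q + j q) - (Q f' + Q f') := by abel
      rw [this, hQ, hQ, ← map_add, hq, map_add, map_neg]
      abel
    have e2 : ∀ σ : QB ≃ₐ[ℚ] QB, act W σ.toAlgHom (Q f + j q - Q f') = Q f + j q - Q f' :=
      fun σ => tors_fix h e1 σ
    apply Subtype.ext
    funext σ
    rw [hf, hf]
    have e3 := e2 σ
    rw [map_sub, map_add, hjσ] at e3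
    have e4 : act W σ.toAlgHom (Q f) - Q f - (act W σ.toAlgHom (Q f') - Q f') =
        (act W σ.toAlgHom (Q f) + j q - act W σ.toAlgHom (Q f')) - (Q f + j q - Q f') := by abel
    rw [← sub_eq_zero, e4, e3, sub_self]
  refine ⟨Finite.of_injective Ψ hΨ, ?_⟩
  rw [← c4, ← c3]
  exact Nat.card_le_card_of_injective Ψ hΨ

end Pool.Agent.H3.X15
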